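import Mathlib

/-!
A small verified search: all ways to choose the edges of a subgraph of a `6`-column grid pattern in
which every present cell has degree two.
-/

namespace Pool.Agent.Lib.GridHam

/-- the numbers with binary digits `g 0, …, g (n-1)` -/
def maskOf (g : ℕ → Bool) : ℕ → ℕ
  | 0 => 0
  | n + 1 => if g n then maskOf g n + 2 ^ n else maskOf g n

theorem maskOf_lt (g : ℕ → Bool) (n : ℕ) : maskOf g n < 2 ^ n := by
  induction n with
  | zero => simp [maskOf]
  | succ n ih =>
    unfold maskOf
    rw [pow_succ]
    split <;> omega

theorem testBit_maskOf (g : ℕ → Bool) (n k : ℕ) :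
    (maskOf g n).testBit k = (decide (k < n) && g k) := by
  induction n with
  | zero => simp [maskOf]
  | succ n ih =>
    unfold maskOf
    split
    · rename_i h
      rw [add_comm]
      rcases lt_trichotomy k n with hk | hk | hk
      · rw [Nat.testBit_two_pow_add_gt hk, ih]
        simp [hk, Nat.lt_succ_of_lt hk]
      · subst hk
        rw [Nat.testBit_two_pow_add_eq, ih]
        simp [h]
      · have h1 : 2 ^ n + maskOf g n < 2 ^ k := by
          have := maskOf_lt g n
          have h2 : 2 ^ (n + 1) ≤ 2 ^ k := Nat.pow_le_pow_right (by norm_num) hk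
          rw [pow_succ] at h2
          omega
        rw [Nat.testBit_lt_two_pow h1]
        have : ¬ k < n + 1 := by omega
        simp [this]
    · rename_i h
      rw [ih]
      rcases lt_trichotomy k n with hk | hk | hk
      · simp [hk, Nat.lt_succ_of_lt hk]
      · subst hk
        simp_all
      · have h1 : ¬ k < n + 1 := by omega
        have h2 : ¬ k < n := by omega
        simp [h1, h2]

/-- the search: `pm` present cells, `crm`/`cdm` cells that may use their right/lower edge, `wm` used
edges entering column `0` from the left; cell `k` is in column `k % 6` and row `k / 6`; bit `k` of `R`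
says that the right edge of cell `k` is used and bit `k + 6` of `D` that its lower edge is used -/
def dfs (pm crm cdm wm : ℕ) (chk : ℕ → ℕ → Bool) : ℕ → ℕ → ℕ → ℕ → Bool
  | 0, _, R, D => chk R D
  | n + 1, k, R, D =>
    bif pm.testBit k then
      match (bif k % 6 == 0 then wm.testBit k else R.testBit (k - 1)), D.testBit k with
      | true, true => dfs pm crm cdm wm chk n (k + 1) R D
      | false, false =>
        bif crm.testBit k && cdm.testBit k then
          dfs pm crm cdm wm chk n (k + 1) (R + 2 ^ k) (D + 2 ^ (k + 6)) else true
      | true, false =>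
        (bif crm.testBit k then dfs pm crm cdm wm chk n (k + 1) (R + 2 ^ k) D else true) &&
        (bif cdm.testBit k then dfs pm crm cdm wm chk n (k + 1) R (D + 2 ^ (k + 6)) else true)
      | false, true =>
        (bif crm.testBit k then dfs pm crm cdm wm chk n (k + 1) (R + 2 ^ k) D else true) &&
        (bif cdm.testBit k then dfs pm crm cdm wm chk n (k + 1) R (D + 2 ^ (k + 6)) else true)
    else
      bif (bif k % 6 == 0 then wm.testBit k else R.testBit (k - 1)) || D.testBit k then true
      else dfs pm crm cdm wm chk n (k + 1) R D

/-- left bit of cell `k` -/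
def lbit (wm : ℕ) (rt : ℕ → Bool) (k : ℕ) : Bool :=
  bif k % 6 == 0 then wm.testBit k else rt (k - 1)

theorem dfs_sound (pm crm cdm wm : ℕ) (chk : ℕ → ℕ → Bool) (rt dn : ℕ → Bool) (N : ℕ)
    (h0 : ∀ k < N, pm.testBit k = false →
      lbit wm rt k = false ∧ dn k = false ∧ rt k = false ∧ dn (k + 6) = false)
    (h1 : ∀ k < N, pm.testBit k = true →
      (lbit wm rt k).toNat + (dn k).toNat + (rt k).toNat + (dn (k + 6)).toNat = 2)
    (h2 : ∀ k < N, (rt k = true → crm.testBit k = true) ∧
      (dn (k + 6) = true → cdm.testBit k = true)) :
    ∀ n k, n + k = N →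
      dfs pm crm cdm wm chk n k (maskOf rt k) (maskOf dn (k + 6)) = true →
      chk (maskOf rt N) (maskOf dn (N + 6)) = true := by
  intro n
  induction n with
  | zero =>
    intro k hk h
    simp only [Nat.zero_add] at hk
    subst hk
    exact h
  | succ n ih =>
    intro k hk h
    have hkN : k < N := by omega
    have hl : (bif k % 6 == 0 then wm.testBit k else (maskOf rt k).testBit (k - 1)) =
        lbit wm rt k := by
      unfold lbit
      by_cases hk6 : k % 6 = 0
      · simp [hk6]
      · have : k - 1 < k := by omega
        simp [hk6, testBit_maskOf, this]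
    have hu : (maskOf dn (k + 6)).testBit k = dn k := by
      simp [testBit_maskOf]
    have hR : ∀ b, rt k = b → maskOf rt (k + 1) = bif b then maskOf rt k + 2 ^ k else maskOf rt k := by
      rintro b rfl
      conv_lhs => unfold maskOf
      cases rt k <;> simp
    have hD : ∀ b, dn (k + 6) = b → maskOf dn (k + 1 + 6) =
        bif b then maskOf dn (k + 6) + 2 ^ (k + 6) else maskOf dn (k + 6) := by
      rintro b rfl
      have : k + 1 + 6 = (k + 6) + 1 := by omega
      rw [this]
      conv_lhs => unfold maskOf
      cases dn (k + 6) <;> simp
    have ih' := ih (k + 1) (by omega)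
    obtain ⟨h2a, h2b⟩ := h2 k hkN
    unfold dfs at h
    rw [hl, hu] at h
    cases hp : pm.testBit k with
    | false =>
      obtain ⟨e1, e2, e3, e4⟩ := h0 k hkN hp
      rw [hp, e1, e2] at h
      simp only [cond_false, Bool.or_self] at h
      rw [hR _ e3, hD _ e4] at ih'
      exact ih' h
    | true =>
      have h1' := h1 k hkN hp
      rw [hp] at h
      simp only [cond_true] at h
      cases hl' : lbit wm rt k <;> cases hu' : dn k <;> cases hr : rt k <;>
        cases hd : dn (k + 6) <;> rw [hl', hu', hr, hd] at h1' <;>
        simp only [Bool.toNat_true, Bool.toNat_false] at h1' <;>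
        (try omega) <;>
        rw [hR _ hr, hD _ hd] at ih' <;>
        rw [hl', hu'] at h <;>
        simp_all

end Pool.Agent.Lib.GridHam
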