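import Mathlib
import Pool.Agent.Lib.MP_17cbde_lc.Defs

/-!
The edges used by a Hamiltonian path of a grid graph, their degrees and connectedness.
-/

namespace Pool.Agent.Lib.GridHam

open Pool.Agent.Lib.MP_17cbde_lc (GridAdj)

abbrev Pt : Type := ℕ × ℕ

/-- `a` and `b` are consecutive in `P` -/
def used (P : List Pt) (a b : Pt) : Prop :=
  ∃ i, (P[i]? = some a ∧ P[i + 1]? = some b) ∨ (P[i]? = some b ∧ P[i + 1]? = some a)

theorem used_symm {P : List Pt} {a b : Pt} (h : used P a b) : used P b a := by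
  obtain ⟨i, h⟩ := h
  exact ⟨i, h.symm⟩

theorem GridAdj.symm' {a b : Pt} (h : GridAdj a b) : GridAdj b a := by
  unfold GridAdj at *
  omega

theorem used_mem {P : List Pt} {a b : Pt} (h : used P a b) : a ∈ P ∧ b ∈ P := by
  obtain ⟨i, ⟨h1, h2⟩ | ⟨h1, h2⟩⟩ := h
  · exact ⟨List.mem_of_getElem? h1, List.mem_of_getElem? h2⟩
  · exact ⟨List.mem_of_getElem? h2, List.mem_of_getElem? h1⟩

theorem idx_inj {P : List Pt} (hnd : P.Nodup) {i j : ℕ} {a : Pt} (h1 : P[i]? = some a)
    (h2 : P[j]? = some a) : i = j := by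
  obtain ⟨hi, h1⟩ := List.getElem?_eq_some_iff.1 h1
  obtain ⟨hj, h2⟩ := List.getElem?_eq_some_iff.1 h2
  exact (List.Nodup.getElem_inj_iff hnd).1 (h1.trans h2.symm)

theorem used_iff {P : List Pt} (hnd : P.Nodup) {i : ℕ} {a b : Pt} (hi : P[i]? = some a) :
    used P a b ↔ P[i + 1]? = some b ∨ (0 < i ∧ P[i - 1]? = some b) := by
  constructor
  · rintro ⟨j, ⟨h1, h2⟩ | ⟨h1, h2⟩⟩
    · rw [idx_inj hnd hi h1]; exact Or.inl h2
    · have := idx_inj hnd hi h2
      subst this
      right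
      exact ⟨Nat.succ_pos _, by simpa using h1⟩
  · rintro (h | ⟨h0, h⟩)
    · exact ⟨i, Or.inl ⟨hi, h⟩⟩
    · exact ⟨i - 1, Or.inr ⟨h, by rw [Nat.sub_add_cancel h0]; exact hi⟩⟩

theorem chain_adj {P : List Pt} (hch : P.IsChain GridAdj) {i : ℕ} {a b : Pt}
    (h1 : P[i]? = some a) (h2 : P[i + 1]? = some b) : GridAdj a b := by
  obtain ⟨hi, h1⟩ := List.getElem?_eq_some_iff.1 h1
  obtain ⟨hj, h2⟩ := List.getElem?_eq_some_iff.1 h2
  have := List.isChain_iff_getElem.1 hch i hj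
  rw [h1, h2] at this
  exact this

theorem used_adj {P : List Pt} (hch : P.IsChain GridAdj) {a b : Pt} (h : used P a b) :
    GridAdj a b := by
  obtain ⟨i, ⟨h1, h2⟩ | ⟨h1, h2⟩⟩ := h
  · exact chain_adj hch h1 h2
  · exact GridAdj.symm' (chain_adj hch h1 h2)

/-- is the edge from `(x, y)` to `(x + 1, y)` used? -/
noncomputable def hb (P : List Pt) (x y : ℕ) : Bool :=
  @decide (used P (x, y) (x + 1, y)) (Classical.dec _)

/-- is the edge from `(x, y)` to `(x, y + 1)` used? -/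
noncomputable def vb (P : List Pt) (x y : ℕ) : Bool :=
  @decide (used P (x, y) (x, y + 1)) (Classical.dec _)

theorem hb_iff {P : List Pt} {x y : ℕ} : hb P x y = true ↔ used P (x, y) (x + 1, y) := by
  unfold hb
  exact @decide_eq_true_iff _ (Classical.dec _)

theorem vb_iff {P : List Pt} {x y : ℕ} : vb P x y = true ↔ used P (x, y) (x, y + 1) := by
  unfold vb
  exact @decide_eq_true_iff _ (Classical.dec _)

/-- every inner vertex of the path has exactly two used edges -/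
theorem degree_two {P : List Pt} (hnd : P.Nodup) (hch : P.IsChain GridAdj) {i x y : ℕ}
    (hi : P[i + 1]? = some (x + 1, y + 1)) (hl : i + 2 < P.length) :
    (hb P x (y + 1)).toNat + (vb P (x + 1) y).toNat + (hb P (x + 1) (y + 1)).toNat +
      (vb P (x + 1) (y + 1)).toNat = 2 := by
  obtain ⟨a, ha⟩ : ∃ a, P[i]? = some a := ⟨P[i], List.getElem?_eq_getElem (by omega)⟩
  obtain ⟨b, hb'⟩ : ∃ b, P[i + 2]? = some b := ⟨P[i + 2], List.getElem?_eq_getElem (by omega)⟩
  have hab : a ≠ b := by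
    rintro rfl
    have := idx_inj hnd ha hb'
    omega
  have h1 := chain_adj hch ha hi
  have h2 := chain_adj hch hi hb'
  have key : ∀ c : Pt, used P (x + 1, y + 1) c ↔ c = b ∨ c = a := by
    intro c
    rw [used_iff hnd hi]
    simp only [Nat.succ_pos, true_and, Nat.add_sub_cancel]
    rw [ha, hb']
    simp [eq_comm]
  have e1 : hb P x (y + 1) = decide ((x, y + 1) = b ∨ (x, y + 1) = a) := by
    rw [Bool.eq_iff_iff, hb_iff, decide_eq_true_iff, ← key]
    exact ⟨used_symm, used_symm⟩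
  have e2 : vb P (x + 1) y = decide ((x + 1, y) = b ∨ (x + 1, y) = a) := by
    rw [Bool.eq_iff_iff, vb_iff, decide_eq_true_iff, ← key]
    exact ⟨used_symm, used_symm⟩
  have e3 : hb P (x + 1) (y + 1) = decide ((x + 1 + 1, y + 1) = b ∨ (x + 1 + 1, y + 1) = a) := by
    rw [Bool.eq_iff_iff, hb_iff, decide_eq_true_iff, ← key]
  have e4 : vb P (x + 1) (y + 1) = decide ((x + 1, y + 1 + 1) = b ∨ (x + 1, y + 1 + 1) = a) := by
    rw [Bool.eq_iff_iff, vb_iff, decide_eq_true_iff, ← key]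
  rw [e1, e2, e3, e4]
  obtain ⟨a1, a2⟩ := a
  obtain ⟨b1, b2⟩ := b
  unfold GridAdj at h1 h2
  simp only [Prod.mk.injEq, ne_eq] at *
  have ha4 : (a1 = x ∧ a2 = y + 1) ∨ (a1 = x + 1 ∧ a2 = y) ∨ (a1 = x + 1 + 1 ∧ a2 = y + 1) ∨
      (a1 = x + 1 ∧ a2 = y + 1 + 1) := by omega
  have hb4 : (b1 = x ∧ b2 = y + 1) ∨ (b1 = x + 1 ∧ b2 = y) ∨ (b1 = x + 1 + 1 ∧ b2 = y + 1) ∨
      (b1 = x + 1 ∧ b2 = y + 1 + 1) := by omega
  clear h1 h2 key e1 e2 e3 e4 ha hb' hi
  rcases ha4 with ⟨rfl, rfl⟩ | ⟨rfl, rfl⟩ | ⟨rfl, rfl⟩ | ⟨rfl, rfl⟩ <;>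
    rcases hb4 with ⟨rfl, rfl⟩ | ⟨rfl, rfl⟩ | ⟨rfl, rfl⟩ | ⟨rfl, rfl⟩ <;>
    simp_all [show ∀ n : ℕ, (n = n + 1 + 1) = False from fun n => by simp; omega,
      show ∀ n : ℕ, (n + 1 + 1 = n) = False from fun n => by simp; omega]

/-- a vertex with at most one neighbour in `P` is an end of the path -/
theorem end_of_unique {P : List Pt} (hnd : P.Nodup) (hch : P.IsChain GridAdj) {i : ℕ} {v w : Pt}
    (hi : P[i]? = some v) (h : ∀ u ∈ P, GridAdj v u → u = w) : i = 0 ∨ i + 1 = P.length := by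
  by_contra hcon
  push Not at hcon
  obtain ⟨h0, h1⟩ := hcon
  have hlt : i < P.length := (List.getElem?_eq_some_iff.1 hi).1
  obtain ⟨a, ha⟩ : ∃ a, P[i - 1]? = some a := ⟨P[i - 1], List.getElem?_eq_getElem (by omega)⟩
  obtain ⟨b, hb'⟩ : ∃ b, P[i + 1]? = some b := ⟨P[i + 1], List.getElem?_eq_getElem (by omega)⟩
  have e1 : i - 1 + 1 = i := by omega
  have h2 := chain_adj hch ha (by rw [e1]; exact hi)
  have h3 := chain_adj hch hi hb'
  have e2 := h a (List.mem_of_getElem? ha) (GridAdj.symm' h2)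
  have e3 := h b (List.mem_of_getElem? hb') h3
  subst e2
  subst e3
  have := idx_inj hnd ha hb'
  omega

/-- a set of vertices which is closed under used edges and contains a vertex of the path contains
all of them -/
theorem closed_all {P : List Pt} {Z : Set Pt} (hZ : ∀ a ∈ Z, ∀ b, used P a b → b ∈ Z)
    {a : Pt} (ha : a ∈ Z) (haP : a ∈ P) : ∀ b ∈ P, b ∈ Z := by
  obtain ⟨i, hi⟩ := List.mem_iff_getElem?.1 haP
  have hup : ∀ n b, P[i + n]? = some b → b ∈ Z := by
    intro n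
    induction n with
    | zero =>
      intro b hb
      rw [Nat.add_zero, hi] at hb
      cases hb
      exact ha
    | succ n ih =>
      intro b hb
      have hlt : i + (n + 1) < P.length := (List.getElem?_eq_some_iff.1 hb).1
      have h1 : P[i + n]? = some P[i + n] := List.getElem?_eq_getElem (by omega)
      exact hZ _ (ih _ h1) b ⟨i + n, Or.inl ⟨h1, by rw [add_assoc]; exact hb⟩⟩
  have hdown : ∀ n b, n ≤ i → P[i - n]? = some b → b ∈ Z := by
    intro n
    induction n with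
    | zero =>
      intro b _ hb
      rw [Nat.sub_zero, hi] at hb
      cases hb
      exact ha
    | succ n ih =>
      intro b hn hb
      have hlt : i < P.length := (List.getElem?_eq_some_iff.1 hi).1
      have h1 : P[i - n]? = some P[i - n] := List.getElem?_eq_getElem (by omega)
      refine hZ _ (ih _ (by omega) h1) b ⟨i - (n + 1), Or.inr ⟨hb, ?_⟩⟩
      have : i - (n + 1) + 1 = i - n := by omega
      rw [this]
      exact h1
  intro b hb
  obtain ⟨j, hj⟩ := List.mem_iff_getElem?.1 hb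
  rcases le_total i j with h | h
  · exact hup (j - i) b (by rw [Nat.add_sub_cancel' h]; exact hj)
  · exact hdown (i - j) b (by omega) (by rw [Nat.sub_sub_self h]; exact hj)

end Pool.Agent.Lib.GridHam
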