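import Mathlib
import Pool.Agent.Lib.GridHam.Dfs
import Pool.Agent.Lib.GridHam.HamPath

/-!
The board: `N + 2` rows and `m + 2` columns of tiles, each with 6 columns and 13 rows of cells.
-/

namespace Pool.Agent.Lib.GridHam

/-- rows (sets of columns, in binary) of an interior tile; `pos`/`neg` tells whether the variable
of the row occurs positively/negatively in the clause of the column -/
def rowsI (pos neg : Bool) : List ℕ :=
  [18, 30, 24, bif pos then 56 else 60, 63, bif pos then 23 else 31, 20,
    bif neg then 23 else 31, 63, bif neg then 56 else 60, 24, 30, 18]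

/-- rows of the left end tile whose strand leaves upwards (`up = true`) or downwards -/
def rowsL (up : Bool) : List ℕ :=
  [bif up then 8 else 0, bif up then 8 else 0, bif up then 8 else 0, 56, 56, 24, 24, 24, 56, 56,
    bif up then 0 else 8, bif up then 0 else 8, bif up then 0 else 8]

/-- rows of the right end tile -/
def rowsR (up : Bool) : List ℕ :=
  [bif up then 2 else 0, bif up then 2 else 0, bif up then 2 else 0, bif up then 2 else 0, 3, 3, 3,
    3, 3, bif up then 0 else 2, bif up then 0 else 2, bif up then 0 else 2, bif up then 0 else 2]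

/-- the rows of the tile in row `I` and column `J` of the board -/
def rowsT (N m : ℕ) (pos neg : ℕ → ℕ → Bool) (I J : ℕ) : List ℕ :=
  if I = 0 then
    if J = 0 then [0, 0, 0, 0, 0, 0, 0, 0, 0, 0, 0, 0, 8]
    else if J ≤ m then [0, 0, 0, 0, 0, 0, 0, 0, 0, 0, 0, 0, 30] else []
  else if I ≤ N then
    if J = 0 then rowsL (I % 2 == 1)
    else if J ≤ m then rowsI (pos I J) (neg I J)
    else if J = m + 1 then rowsR (I % 2 == 0) else []
  else if I = N + 1 then
    if J = 0 then [8] else if J ≤ m then [30] else []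
  else []

/-- is cell `(c, r)` of a tile present? -/
def bit (rows : List ℕ) (c r : ℕ) : Bool := (rows.getD r 0).testBit c

/-- is the cell `(x, y)` present? -/
def occ (N m : ℕ) (pos neg : ℕ → ℕ → Bool) (x y : ℕ) : Bool :=
  bit (rowsT N m pos neg (y / 13) (x / 6)) (x % 6) (y % 13)

/-- the cells of a tile -/
def cellsR (rows : List ℕ) : List (ℕ × ℕ) :=
  ((List.range 78).filter fun k => bit rows (k % 6) (k / 6)).map fun k => (k % 6, k / 6)

/-- position of a cell of the tile in row `I` and column `J` -/
def shift (I J : ℕ) (p : ℕ × ℕ) : ℕ × ℕ := (6 * J + p.1, 13 * I + p.2)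

/-- the vertices of the grid graph -/
def board (N m : ℕ) (pos neg : ℕ → ℕ → Bool) : List (ℕ × ℕ) :=
  (List.range (N + 2)).flatMap fun I => (List.range (m + 2)).flatMap fun J =>
    (cellsR (rowsT N m pos neg I J)).map (shift I J)

theorem mem_cellsR {rows : List ℕ} {c r : ℕ} :
    (c, r) ∈ cellsR rows ↔ c < 6 ∧ r < 13 ∧ bit rows c r = true := by
  unfold cellsR
  simp only [List.mem_map, List.mem_filter, List.mem_range, Prod.mk.injEq]
  constructor
  · rintro ⟨k, ⟨hk, hb⟩, rfl, rfl⟩
    exact ⟨by omega, by omega, hb⟩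
  · rintro ⟨hc, hr, hb⟩
    refine ⟨6 * r + c, ⟨by omega, ?_⟩, by omega, by omega⟩
    have h1 : (6 * r + c) % 6 = c := by omega
    have h2 : (6 * r + c) / 6 = r := by omega
    rw [h1, h2]
    exact hb

variable {N m : ℕ} {pos neg : ℕ → ℕ → Bool}

theorem bit_nil (c r : ℕ) : bit [] c r = false := by simp [bit]

theorem occ_lt {x y : ℕ} (h : occ N m pos neg x y = true) : x / 6 < m + 2 ∧ y / 13 < N + 2 := by
  unfold occ rowsT at h
  by_contra hcon
  split_ifs at h <;> first | omega | (rw [bit_nil] at h; exact absurd h (by simp))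

theorem occ_shift {I J c r : ℕ} (hc : c < 6) (hr : r < 13) :
    occ N m pos neg (6 * J + c) (13 * I + r) = bit (rowsT N m pos neg I J) c r := by
  unfold occ
  have h1 : (6 * J + c) / 6 = J := by omega
  have h2 : (6 * J + c) % 6 = c := by omega
  have h3 : (13 * I + r) / 13 = I := by omega
  have h4 : (13 * I + r) % 13 = r := by omega
  rw [h1, h2, h3, h4]

theorem mem_board {x y : ℕ} : (x, y) ∈ board N m pos neg ↔ occ N m pos neg x y = true := by
  unfold board
  simp only [List.mem_flatMap, List.mem_map, List.mem_range, Prod.exists]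
  constructor
  · rintro ⟨I, hI, J, hJ, c, r, hcr, h⟩
    rw [mem_cellsR] at hcr
    obtain ⟨hc, hr, hb⟩ := hcr
    unfold shift at h
    simp only [Prod.mk.injEq] at h
    rw [← h.1, ← h.2, occ_shift hc hr]
    exact hb
  · intro h
    obtain ⟨h1, h2⟩ := occ_lt h
    refine ⟨y / 13, h2, x / 6, h1, x % 6, y % 13, ?_, ?_⟩
    · rw [mem_cellsR]
      exact ⟨by omega, by omega, h⟩
    · unfold shift
      simp only [Prod.mk.injEq]
      omega

theorem nodup_cellsR (rows : List ℕ) : (cellsR rows).Nodup := by
  unfold cellsR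
  apply List.Nodup.map_on
  · intro a _ b _ h
    simp only [Prod.mk.injEq] at h
    omega
  · exact List.nodup_range.filter _

theorem shift_injective (I J : ℕ) : Function.Injective (shift I J) := by
  rintro ⟨a, b⟩ ⟨c, d⟩ h
  unfold shift at h
  simp only [Prod.mk.injEq] at h ⊢
  omega

theorem nodup_board : (board N m pos neg).Nodup := by
  unfold board
  rw [List.nodup_flatMap]
  refine ⟨fun I _ => ?_, ?_⟩
  · rw [List.nodup_flatMap]
    refine ⟨fun J _ => (nodup_cellsR _).map (shift_injective I J), ?_⟩
    refine List.Pairwise.imp ?_ List.nodup_range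
    intro J J' hJ
    rw [Function.onFun, List.disjoint_left]
    intro p hp hp'
    obtain ⟨⟨c, r⟩, h1, rfl⟩ := List.mem_map.1 hp
    obtain ⟨⟨c', r'⟩, h2, h3⟩ := List.mem_map.1 hp'
    rw [mem_cellsR] at h1 h2
    unfold shift at h3
    simp only [Prod.mk.injEq] at h3
    omega
  · refine List.Pairwise.imp ?_ List.nodup_range
    intro I I' hI
    rw [Function.onFun, List.disjoint_left]
    intro p hp hp'
    obtain ⟨J, -, hp⟩ := List.mem_flatMap.1 hp
    obtain ⟨J', -, hp'⟩ := List.mem_flatMap.1 hp'
    obtain ⟨⟨c, r⟩, h1, rfl⟩ := List.mem_map.1 hp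
    obtain ⟨⟨c', r'⟩, h2, h3⟩ := List.mem_map.1 hp'
    rw [mem_cellsR] at h1 h2
    unfold shift at h3
    simp only [Prod.mk.injEq] at h3
    omega

end Pool.Agent.Lib.GridHam
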