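import Mathlib
import Pool.Agent.Lib.GridHam.Board

/-!
The paths through the tiles (completeness direction): data and finite checks.
-/

namespace Pool.Agent.Lib.GridHam

/-- which of the neighbouring rings are visited by the path in a tile -/
inductive St
  | U | L | B
  deriving DecidableEq

/-- The three pieces of the path inside an interior tile. In state `U` these are: from the W port to
the upper left strand, from the upper right strand to the E port, and the closed part between the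
lower strands. In state `L`: from the W port to the lower left strand, from the lower right strand to
the E port, and the closed part between the upper strands. In state `B` (both rings are visited):
from the W port to the first ring, from the first ring to the second one, and from there to the E
port. -/
def path : Bool → Bool → Bool → St → List ℕ × List ℕ × List ℕ
  | false, false, true, St.U =>
    ([24, 30, 31, 25, 26, 20, 21, 15, 9, 8, 7, 1],
     [4, 10, 16, 22, 23, 29],
     [73, 67, 68, 69, 63, 57, 56, 50, 49, 48, 42, 43, 44, 38, 32, 33, 27, 28, 34, 40, 46, 45, 51, 52, 53, 59, 58, 64, 70, 76])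
  | false, false, true, St.L =>
    ([24, 30, 31, 25, 26, 20, 21, 27, 33, 32, 38, 44, 43, 42, 48, 49, 50, 56, 57, 63, 69, 68, 67, 73],
     [76, 70, 64, 58, 59, 53, 52, 51, 45, 46, 40, 34, 28, 22, 23, 29],
     [1, 7, 8, 9, 15, 16, 10, 4])
  | false, false, false, St.U =>
    ([48, 42, 43, 49, 50, 56, 57, 51, 45, 44, 38, 32, 31, 30, 24, 25, 26, 20, 21, 15, 9, 8, 7, 1],
     [4, 10, 16, 22, 23, 29, 28, 27, 33, 34, 40, 46, 52, 58, 59, 53],
     [73, 67, 68, 69, 63, 64, 70, 76])
  | false, false, false, St.L =>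
    ([48, 42, 43, 49, 50, 56, 57, 63, 69, 68, 67, 73],
     [76, 70, 64, 58, 59, 53],
     [1, 7, 8, 9, 15, 21, 20, 26, 25, 24, 30, 31, 32, 38, 44, 45, 51, 52, 46, 40, 34, 33, 27, 28, 29, 23, 22, 16, 10, 4])
  | false, true, true, St.U =>
    ([24, 30, 31, 25, 26, 20, 21, 15, 9, 8, 7, 1],
     [4, 10, 16, 22, 23, 29],
     [73, 67, 68, 69, 63, 57, 51, 50, 49, 48, 42, 43, 44, 38, 32, 33, 27, 28, 34, 40, 46, 52, 53, 59, 58, 64, 70, 76])
  | false, true, true, St.L =>
    ([24, 30, 31, 25, 26, 20, 21, 27, 33, 32, 38, 44, 43, 42, 48, 49, 50, 51, 57, 63, 69, 68, 67, 73],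
     [76, 70, 64, 58, 59, 53, 52, 46, 40, 34, 28, 22, 23, 29],
     [1, 7, 8, 9, 15, 16, 10, 4])
  | false, true, false, St.U =>
    ([48, 42, 43, 49, 50, 44, 38, 32, 31, 30, 24, 25, 26, 20, 21, 15, 9, 8, 7, 1],
     [4, 10, 16, 22, 23, 29, 28, 27, 33, 34, 40, 46, 52, 51, 57, 63, 64, 58, 59, 53],
     [73, 67, 68, 69, 70, 76])
  | false, true, false, St.L =>
    ([48, 42, 43, 49, 50, 44, 38, 32, 31, 30, 24, 25, 26, 20, 21, 22, 23, 29, 28, 27, 33, 34, 40, 46, 52, 51, 57, 63, 69, 68, 67, 73],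
     [76, 70, 64, 58, 59, 53],
     [1, 7, 8, 9, 15, 16, 10, 4])
  | false, true, false, St.B =>
    ([48, 42, 43, 49, 50, 44, 38, 32, 31, 30, 24, 25, 26, 20, 21, 15, 9, 8, 7, 1],
     [4, 10, 16, 22, 23, 29, 28, 27, 33, 34, 40, 46, 52, 51, 57, 63, 69, 68, 67, 73],
     [76, 70, 64, 58, 59, 53])
  | true, false, true, St.U =>
    ([24, 30, 31, 25, 26, 32, 38, 44, 43, 42, 48, 49, 50, 56, 57, 63, 64, 58, 59, 53, 52, 51, 45, 46, 40, 34, 28, 27, 21, 15, 9, 8, 7, 1],
     [4, 10, 16, 22, 23, 29],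
     [73, 67, 68, 69, 70, 76])
  | true, false, true, St.L =>
    ([24, 30, 31, 25, 26, 32, 38, 44, 43, 42, 48, 49, 50, 56, 57, 63, 69, 68, 67, 73],
     [76, 70, 64, 58, 59, 53, 52, 51, 45, 46, 40, 34, 28, 27, 21, 22, 23, 29],
     [1, 7, 8, 9, 15, 16, 10, 4])
  | true, false, true, St.B =>
    ([24, 30, 31, 25, 26, 32, 38, 44, 43, 42, 48, 49, 50, 56, 57, 63, 69, 68, 67, 73],
     [76, 70, 64, 58, 59, 53, 52, 51, 45, 46, 40, 34, 28, 27, 21, 15, 9, 8, 7, 1],
     [4, 10, 16, 22, 23, 29])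
  | true, false, false, St.U =>
    ([48, 42, 43, 49, 50, 56, 57, 51, 45, 44, 38, 32, 31, 30, 24, 25, 26, 27, 21, 15, 9, 8, 7, 1],
     [4, 10, 16, 22, 23, 29, 28, 34, 40, 46, 52, 58, 59, 53],
     [73, 67, 68, 69, 63, 64, 70, 76])
  | true, false, false, St.L =>
    ([48, 42, 43, 49, 50, 56, 57, 63, 69, 68, 67, 73],
     [76, 70, 64, 58, 59, 53],
     [1, 7, 8, 9, 15, 21, 27, 26, 25, 24, 30, 31, 32, 38, 44, 45, 51, 52, 46, 40, 34, 28, 29, 23, 22, 16, 10, 4])
  | true, true, true, St.U =>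
    ([24, 30, 31, 25, 26, 32, 38, 44, 43, 42, 48, 49, 50, 51, 57, 63, 64, 58, 59, 53, 52, 46, 40, 34, 28, 27, 21, 15, 9, 8, 7, 1],
     [4, 10, 16, 22, 23, 29],
     [73, 67, 68, 69, 70, 76])
  | true, true, true, St.L =>
    ([24, 30, 31, 25, 26, 32, 38, 44, 43, 42, 48, 49, 50, 51, 57, 63, 69, 68, 67, 73],
     [76, 70, 64, 58, 59, 53, 52, 46, 40, 34, 28, 27, 21, 22, 23, 29],
     [1, 7, 8, 9, 15, 16, 10, 4])
  | true, true, true, St.B =>
    ([24, 30, 31, 25, 26, 32, 38, 44, 43, 42, 48, 49, 50, 51, 57, 63, 69, 68, 67, 73],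
     [76, 70, 64, 58, 59, 53, 52, 46, 40, 34, 28, 27, 21, 15, 9, 8, 7, 1],
     [4, 10, 16, 22, 23, 29])
  | true, true, false, St.U =>
    ([48, 42, 43, 49, 50, 44, 38, 32, 31, 30, 24, 25, 26, 27, 21, 15, 9, 8, 7, 1],
     [4, 10, 16, 22, 23, 29, 28, 34, 40, 46, 52, 51, 57, 63, 64, 58, 59, 53],
     [73, 67, 68, 69, 70, 76])
  | true, true, false, St.L =>
    ([48, 42, 43, 49, 50, 44, 38, 32, 31, 30, 24, 25, 26, 27, 21, 22, 23, 29, 28, 34, 40, 46, 52, 51, 57, 63, 69, 68, 67, 73],
     [76, 70, 64, 58, 59, 53],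
     [1, 7, 8, 9, 15, 16, 10, 4])
  | true, true, false, St.B =>
    ([48, 42, 43, 49, 50, 44, 38, 32, 31, 30, 24, 25, 26, 27, 21, 15, 9, 8, 7, 1],
     [4, 10, 16, 22, 23, 29, 28, 34, 40, 46, 52, 51, 57, 63, 69, 68, 67, 73],
     [76, 70, 64, 58, 59, 53])
  | _, _, _, _ => ([], [], [])

/-- path in the left end tile from the strand to the E port -/
def pathL : Bool → Bool → List ℕ
  | true, true => [3, 9, 15, 21, 27, 33, 39, 45, 51, 57, 58, 59, 53, 52, 46, 40, 34, 28, 22, 23, 29]
  | true, false => [3, 9, 15, 21, 22, 23, 29, 28, 27, 33, 34, 40, 39, 45, 46, 52, 51, 57, 58, 59, 53]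
  | false, true => [75, 69, 63, 57, 58, 59, 53, 52, 51, 45, 46, 40, 39, 33, 34, 28, 27, 21, 22, 23, 29]
  | false, false => [75, 69, 63, 57, 51, 45, 39, 33, 27, 21, 22, 23, 29, 28, 34, 40, 46, 52, 58, 59, 53]

/-- path in the right end tile from the W port to the strand -/
def pathR : Bool → Bool → List ℕ
  | true, true => [24, 30, 36, 42, 48, 49, 43, 37, 31, 25, 19, 13, 7, 1]
  | true, false => [48, 49, 43, 42, 36, 37, 31, 30, 24, 25, 19, 13, 7, 1]
  | false, true => [24, 25, 31, 30, 36, 37, 43, 42, 48, 49, 55, 61, 67, 73]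
  | false, false => [48, 42, 36, 30, 24, 25, 31, 37, 43, 49, 55, 61, 67, 73]

/-- adjacency of cells given by their numbers -/
def adjK (k k' : ℕ) : Bool :=
  (k / 6 == k' / 6 && (k + 1 == k' || k' + 1 == k)) || k + 6 == k' || k' + 6 == k

def chainB : List ℕ → Bool
  | a :: b :: l => adjK a b && chainB (b :: l)
  | _ => true

/-- a path from `a` to `b` -/
def okSeg (a : ℕ) (l : List ℕ) (b : ℕ) : Bool :=
  l.head? == some a && l.getLast? == some b && chainB l

def wOf' (top : Bool) : ℕ := bif top then 24 else 48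
def eOf' (top : Bool) : ℕ := bif top then 29 else 53

def cellsK (rows : List ℕ) : List ℕ := (List.range 78).filter fun k => bit rows (k % 6) (k / 6)

theorem path_U : ∀ p n t : Bool,
    (okSeg (wOf' t) (path p n t St.U).1 1 && okSeg 4 (path p n t St.U).2.1 (eOf' t) &&
      okSeg 73 (path p n t St.U).2.2 76) = true := by decide +kernel

theorem path_L : ∀ p n t : Bool,
    (okSeg (wOf' t) (path p n t St.L).1 73 && okSeg 76 (path p n t St.L).2.1 (eOf' t) &&
      okSeg 1 (path p n t St.L).2.2 4) = true := by decide +kernel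

theorem path_B_top : ∀ n : Bool,
    (okSeg 24 (path true n true St.B).1 73 && okSeg 76 (path true n true St.B).2.1 1 &&
      okSeg 4 (path true n true St.B).2.2 29) = true := by decide +kernel

theorem path_B_bot : ∀ p : Bool,
    (okSeg 48 (path p true false St.B).1 1 && okSeg 4 (path p true false St.B).2.1 73 &&
      okSeg 76 (path p true false St.B).2.2 53) = true := by decide +kernel

theorem perm_path : ∀ p n t : Bool, ∀ s ∈ [St.U, St.L, St.B], (s = St.B → (bif t then p else n) = true) →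
    (((path p n t s).1 ++ (path p n t s).2.1 ++ (path p n t s).2.2).isPerm
      (cellsK (rowsI p n))) = true := by decide +kernel

theorem okSeg_L : ∀ u t : Bool, (okSeg (bif u then 3 else 75) (pathL u t) (eOf' t) &&
    (pathL u t).isPerm (cellsK (rowsL u))) = true := by decide +kernel

theorem okSeg_R : ∀ u t : Bool, (okSeg (wOf' t) (pathR u t) (bif u then 1 else 73) &&
    (pathR u t).isPerm (cellsK (rowsR u))) = true := by decide +kernel

end Pool.Agent.Lib.GridHam
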