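import Mathlib
import Pool.Agent.Lib.GridHam.Dfs
import Pool.Agent.Lib.GridHam.Board

/-!
The finite checks about the tiles (soundness direction).
-/

namespace Pool.Agent.Lib.GridHam

/-- the number whose base-`64` digits are the rows -/
def packRows (l : List ℕ) : ℕ := l.foldr (fun a b => a + 64 * b) 0

/-- positions in columns `0..4` -/
def inner : ℕ := packRows (List.replicate 13 31)

/-- one step of the flooding along the used inner edges -/
def step (R D S : ℕ) : ℕ :=
  S ||| ((S &&& R) <<< 1) ||| ((S >>> 1) &&& R) ||| ((S &&& D) <<< 6) ||| ((S >>> 6) &&& D)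

/-- flooding along the used inner edges -/
def flood (R D : ℕ) : ℕ → ℕ → ℕ
  | 0, S => S
  | n + 1, S => bif step R D S == S then S else flood R D n (step R D S)

/-- positions of the W and E port -/
def wOf (top : Bool) : ℕ := bif top then 24 else 48
def eOf (top : Bool) : ℕ := bif top then 29 else 53

/-- leaf check for interior tiles -/
def leafI (sat top : Bool) (pm : ℕ) (R D : ℕ) : Bool :=
  let Ri := R &&& inner
  let Di := (D >>> 6) &&& (2 ^ 72 - 1)
  let A := flood Ri Di 60 (2 ^ 1 + 2 ^ 4)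
  let B := flood Ri Di 60 (2 ^ 73 + 2 ^ 76)
  let C := flood Ri Di 60 (2 ^ 1 + 2 ^ 4 + 2 ^ 73 + 2 ^ 76 + 2 ^ wOf top + 2 ^ eOf top)
  ((R.testBit 29 == top) && (R.testBit 53 == !top)) &&
   (sat ||
    (step Ri Di A == A && (A.testBit 1 && A.testBit 4 && !A.testBit (wOf top) &&
      !A.testBit (eOf top) && !A.testBit 73 && !A.testBit 76)) ||
    (step Ri Di B == B && (B.testBit 73 && B.testBit 76 && !B.testBit (wOf top) &&
      !B.testBit (eOf top) && !B.testBit 1 && !B.testBit 4)) ||
    (step Ri Di C == C && (C.testBit 1 && C.testBit 4 && C.testBit 73 && C.testBit 76 &&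
      C.testBit (wOf top) && C.testBit (eOf top)) && !((C &&& pm) == pm)))

def pmI (pos neg : Bool) : ℕ := packRows (rowsI pos neg)
def crmI (pos neg : Bool) : ℕ :=
  (pmI pos neg &&& (pmI pos neg >>> 1) &&& inner) + 2 ^ 29 + 2 ^ 53
def cdmI (pos neg : Bool) : ℕ := (pmI pos neg &&& (pmI pos neg >>> 6)) + 2 ^ 73 + 2 ^ 76

def checkI (pos neg top : Bool) : Bool :=
  dfs (pmI pos neg) (crmI pos neg) (cdmI pos neg) (2 ^ wOf top)
    (leafI (bif top then pos else neg) top (pmI pos neg)) 78 0 0 18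

theorem checkI_true : ∀ pos neg top : Bool, checkI pos neg top = true := by decide +kernel

theorem pmI_spec : ∀ pos neg : Bool, ∀ k < 78,
    (pmI pos neg).testBit k = bit (rowsI pos neg) (k % 6) (k / 6) := by decide +kernel

theorem crmI_spec : ∀ pos neg : Bool, ∀ k < 78, ((crmI pos neg).testBit k ||
    !(bit (rowsI pos neg) (k % 6) (k / 6)) ||
    (k % 6 != 5 && !(bit (rowsI pos neg) (k % 6 + 1) (k / 6))) ||
    (k % 6 == 5 && k / 6 != 4 && k / 6 != 8)) = true := by decide +kernel

theorem cdmI_spec : ∀ pos neg : Bool, ∀ k < 78, ((cdmI pos neg).testBit k ||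
    !(bit (rowsI pos neg) (k % 6) (k / 6)) ||
    (k / 6 != 12 && !(bit (rowsI pos neg) (k % 6) (k / 6 + 1)))) = true := by decide +kernel

theorem inner_spec : ∀ k < 78, inner.testBit k = decide (k % 6 ≠ 5) := by decide +kernel

/-- the right neighbours of the last column -/
theorem rowsI_border : ∀ p n p' n' u : Bool, ∀ r < 13, (r == 4 || r == 8 ||
    !(bit (rowsI p n) 5 r) || (!(bit (rowsI p' n') 0 r) && !(bit (rowsR u) 0 r))) = true := by
  decide +kernel

/-- the left neighbours of the first column -/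
theorem rowsI_border' : ∀ p n p' n' u : Bool, ∀ r < 13, (r == 4 || r == 8 ||
    !(bit (rowsI p n) 0 r) || (!(bit (rowsI p' n') 5 r) && !(bit (rowsL u) 5 r))) = true := by
  decide +kernel

theorem rowsI_first : ∀ p n : Bool, ∀ c < 6, bit (rowsI p n) c 0 = decide (c = 1 ∨ c = 4) := by
  decide +kernel

theorem rowsI_last : ∀ p n : Bool, ∀ c < 6, bit (rowsI p n) c 12 = decide (c = 1 ∨ c = 4) := by
  decide +kernel

theorem rowsI_lane : ∀ p n : Bool, bit (rowsI p n) 0 4 = true ∧ bit (rowsI p n) 0 8 = true ∧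
    bit (rowsI p n) 5 4 = true ∧ bit (rowsI p n) 5 8 = true := by
  decide +kernel

/-! left end tiles -/

def pmL (up : Bool) : ℕ := packRows (rowsL up)
def crmL (up : Bool) : ℕ := (pmL up &&& (pmL up >>> 1) &&& inner) + 2 ^ 29 + 2 ^ 53
def cdmL (up : Bool) : ℕ := (pmL up &&& (pmL up >>> 6)) + bif up then 0 else 2 ^ 75

def leafL (R _D : ℕ) : Bool := R.testBit 53 == !(R.testBit 29)

def checkL (up : Bool) : Bool :=
  dfs (pmL up) (crmL up) (cdmL up) 0 leafL 78 0 0 (bif up then 8 else 0)

theorem checkL_true : ∀ up : Bool, checkL up = true := by decide +kernel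

theorem pmL_spec : ∀ up : Bool, ∀ k < 78,
    (pmL up).testBit k = bit (rowsL up) (k % 6) (k / 6) := by decide +kernel

theorem crmL_spec : ∀ up : Bool, ∀ k < 78, ((crmL up).testBit k ||
    !(bit (rowsL up) (k % 6) (k / 6)) ||
    (k % 6 != 5 && !(bit (rowsL up) (k % 6 + 1) (k / 6))) ||
    (k % 6 == 5 && k / 6 != 4 && k / 6 != 8)) = true := by decide +kernel

theorem cdmL_spec : ∀ up : Bool, ∀ k < 78, ((cdmL up).testBit k ||
    !(bit (rowsL up) (k % 6) (k / 6)) ||
    (k / 6 != 12 && !(bit (rowsL up) (k % 6) (k / 6 + 1)))) = true := by decide +kernel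

theorem rowsL_border : ∀ u p' n' u' : Bool, ∀ r < 13, (r == 4 || r == 8 ||
    !(bit (rowsL u) 5 r) || (!(bit (rowsI p' n') 0 r) && !(bit (rowsR u') 0 r))) = true := by
  decide +kernel

theorem rowsL_zero : ∀ u : Bool, ∀ r < 13, bit (rowsL u) 0 r = false := by
  decide +kernel

theorem rowsL_first : ∀ c < 6, bit (rowsL true) c 0 = decide (c = 3) ∧
    bit (rowsL false) c 0 = false := by
  decide +kernel

end Pool.Agent.Lib.GridHam
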