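import Mathlib
import Pool.Agent.Lib.GridHam.Dfs
import Pool.Agent.Lib.GridHam.HamPath
import Pool.Agent.Lib.GridHam.Board
import Pool.Agent.Lib.GridHam.Tile

/-!
Soundness of the reduction: a Hamiltonian path of the board yields a satisfying assignment.
-/

namespace Pool.Agent.Lib.GridHam

open Pool.Agent.Lib.MP_17cbde_lc (GridAdj)

section

variable {N m : ℕ} {pos neg : ℕ → ℕ → Bool} {P : List Pt}

/-- the standing assumptions -/
structure Setup (N m : ℕ) (pos neg : ℕ → ℕ → Bool) (P : List Pt) : Prop where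
  perm : P.Perm (board N m pos neg)
  chain : P.IsChain GridAdj
  even : N % 2 = 0
  two_le : 2 ≤ N

theorem Setup.nodup (h : Setup N m pos neg P) : P.Nodup :=
  h.perm.nodup_iff.2 nodup_board

theorem Setup.mem (h : Setup N m pos neg P) {x y : ℕ} :
    (x, y) ∈ P ↔ occ N m pos neg x y = true := by
  rw [h.perm.mem_iff, mem_board]

theorem Setup.hb_occ (h : Setup N m pos neg P) {x y : ℕ} (hu : hb P x y = true) :
    occ N m pos neg x y = true ∧ occ N m pos neg (x + 1) y = true := by
  have := used_mem (hb_iff.1 hu)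
  rw [h.mem, h.mem] at this
  exact this

theorem Setup.vb_occ (h : Setup N m pos neg P) {x y : ℕ} (hu : vb P x y = true) :
    occ N m pos neg x y = true ∧ occ N m pos neg x (y + 1) = true := by
  have := used_mem (vb_iff.1 hu)
  rw [h.mem, h.mem] at this
  exact this

theorem occ_eq (I J c r : ℕ) (hc : c < 6) (hr : r < 13) {x y : ℕ} (hx : x = 6 * J + c)
    (hy : y = 13 * I + r) :
    occ N m pos neg x y = bit (rowsT N m pos neg I J) c r := by
  subst hx hy
  exact occ_shift hc hr

theorem Setup.ends (h : Setup N m pos neg P) {v : Pt} (hv : v ∈ P) (h1 : v ≠ (3, 12))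
    (h2 : v ≠ (3, 13 * (N + 1))) : ∃ i, P[i + 1]? = some v ∧ i + 2 < P.length := by
  have hs : (3, 12) ∈ P := by
    rw [h.mem, occ_eq 0 0 3 12 (by norm_num) (by norm_num) rfl rfl]
    simp [rowsT, bit]
    decide
  have he : (3, 13 * (N + 1)) ∈ P := by
    rw [h.mem, occ_eq (N + 1) 0 3 0 (by norm_num) (by norm_num) (x := 3) (y := 13 * (N + 1)) rfl rfl]
    simp [rowsT, bit]
    decide
  obtain ⟨i, hi⟩ := List.mem_iff_getElem?.1 hs
  obtain ⟨j, hj⟩ := List.mem_iff_getElem?.1 he
  obtain ⟨k, hk⟩ := List.mem_iff_getElem?.1 hv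
  have hi' := end_of_unique h.nodup h.chain (w := (3, 13)) hi (by
    rintro ⟨x, y⟩ hu hadj
    rw [h.mem] at hu
    have h4 : (x = 3 ∧ (y = 13 ∨ y = 11)) ∨ (y = 12 ∧ (x = 4 ∨ x = 2)) := by
      unfold GridAdj at hadj
      simp only at hadj
      omega
    rcases h4 with ⟨rfl, rfl | rfl⟩ | ⟨rfl, rfl | rfl⟩
    · rfl
    · rw [occ_eq 0 0 3 11 (by norm_num) (by norm_num) rfl rfl] at hu
      simp [rowsT, bit] at hu
    · rw [occ_eq 0 0 4 12 (by norm_num) (by norm_num) rfl rfl] at hu
      simp [rowsT, bit] at hu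
      exact absurd hu (by decide)
    · rw [occ_eq 0 0 2 12 (by norm_num) (by norm_num) rfl rfl] at hu
      simp [rowsT, bit] at hu
      exact absurd hu (by decide))
  have hj' := end_of_unique h.nodup h.chain (w := (3, 13 * N + 12)) hj (by
    rintro ⟨x, y⟩ hu hadj
    rw [h.mem] at hu
    have h4 : (x = 3 ∧ (y = 13 * N + 12 ∨ y = 13 * (N + 1) + 1)) ∨
        (y = 13 * (N + 1) ∧ (x = 4 ∨ x = 2)) := by
      unfold GridAdj at hadj
      simp only at hadj
      omega
    rcases h4 with ⟨rfl, rfl | rfl⟩ | ⟨rfl, rfl | rfl⟩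
    · rfl
    · rw [occ_eq (N + 1) 0 3 1 (by norm_num) (by norm_num) rfl rfl] at hu
      simp [rowsT, bit] at hu
    · rw [occ_eq (N + 1) 0 4 0 (by norm_num) (by norm_num) (x := 4) (y := 13 * (N + 1)) rfl rfl] at hu
      simp [rowsT, bit] at hu
      exact absurd hu (by decide)
    · rw [occ_eq (N + 1) 0 2 0 (by norm_num) (by norm_num) (x := 2) (y := 13 * (N + 1)) rfl rfl] at hu
      simp [rowsT, bit] at hu
      exact absurd hu (by decide))
  have hij : i ≠ j := by
    rintro rfl
    rw [hi] at hj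
    simp only [Option.some.injEq, Prod.mk.injEq, true_and] at hj
    omega
  have hik : i ≠ k := by
    rintro rfl
    rw [hi] at hk
    exact h1 (Option.some.inj hk).symm
  have hjk : j ≠ k := by
    rintro rfl
    rw [hj] at hk
    exact h2 (Option.some.inj hk).symm
  have hkl : k < P.length := (List.getElem?_eq_some_iff.1 hk).1
  refine ⟨k - 1, ?_, by omega⟩
  have : k - 1 + 1 = k := by omega
  rw [this]
  exact hk

/-- the degree equation -/
theorem Setup.degree (h : Setup N m pos neg P) {x y : ℕ} (ho : occ N m pos neg x y = true)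
    (hx : 1 ≤ x) (hy : 13 ≤ y) (hy' : y < 13 * (N + 1)) :
    (hb P (x - 1) y).toNat + (vb P x (y - 1)).toNat + (hb P x y).toNat + (vb P x y).toNat = 2 := by
  obtain ⟨i, hi, hl⟩ := h.ends (v := (x, y)) (h.mem.2 ho)
    (by simp only [ne_eq, Prod.mk.injEq]; omega) (by simp only [ne_eq, Prod.mk.injEq]; omega)
  obtain ⟨x, rfl⟩ : ∃ x', x = x' + 1 := ⟨x - 1, by omega⟩
  obtain ⟨y, rfl⟩ : ∃ y', y = y' + 1 := ⟨y - 1, by omega⟩
  exact degree_two h.nodup h.chain hi hl

/-- right edges of the cells of a tile -/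
noncomputable def rtT (P : List Pt) (I J : ℕ) (k : ℕ) : Bool := hb P (6 * J + k % 6) (13 * I + k / 6)

/-- upper edges of the cells of a tile; the lower edge of cell `k` has number `k + 6` -/
noncomputable def dnT (P : List Pt) (I J : ℕ) (k : ℕ) : Bool :=
  vb P (6 * J + k % 6) (13 * I + k / 6 - 1)

theorem Setup.tile_dfs (h : Setup N m pos neg P) {I J : ℕ} (hI : 1 ≤ I) (hIN : I ≤ N)
    (rows : List ℕ) (hrows : rowsT N m pos neg I J = rows)
    (hJ : J = 0 → ∀ r < 13, bit rows 0 r = false)
    (pm crm cdm wm D0 : ℕ) (chk : ℕ → ℕ → Bool)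
    (hpm : ∀ k < 78, pm.testBit k = bit rows (k % 6) (k / 6))
    (hcr : ∀ k < 78, crm.testBit k = false → rtT P I J k = false)
    (hcd : ∀ k < 78, cdm.testBit k = false → dnT P I J (k + 6) = false)
    (hwm : ∀ r < 13, wm.testBit (6 * r) = (decide (1 ≤ J) && hb P (6 * J - 1) (13 * I + r)))
    (hD0 : ∀ j < 6, D0.testBit j = dnT P I J j) (hD0lt : D0 < 2 ^ 6)
    (hdfs : dfs pm crm cdm wm chk 78 0 0 D0 = true) :
    chk (maskOf (rtT P I J) 78) (maskOf (dnT P I J) 84) = true := by
  have hD : maskOf (dnT P I J) 6 = D0 := by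
    apply Nat.eq_of_testBit_eq
    intro j
    rw [testBit_maskOf]
    by_cases hj : j < 6
    · simp [hj, hD0 j hj]
    · have h1 : D0 < 2 ^ j := lt_of_lt_of_le hD0lt (Nat.pow_le_pow_right (by norm_num) (by omega))
      simp [hj, Nat.testBit_lt_two_pow h1]
  have hlb : ∀ k < 78, lbit wm (rtT P I J) k =
      (decide (1 ≤ J ∨ k % 6 ≠ 0) && hb P (6 * J + k % 6 - 1) (13 * I + k / 6)) := by
    intro k hk
    unfold lbit rtT
    by_cases h6 : k % 6 = 0
    · have h7 : k = 6 * (k / 6) := by omega
      have := hwm (k / 6) (by omega)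
      rw [← h7] at this
      simp [h6, this]
    · have e1 : (k - 1) % 6 = k % 6 - 1 := by omega
      have e2 : (k - 1) / 6 = k / 6 := by omega
      have e3 : 6 * J + (k % 6 - 1) = 6 * J + k % 6 - 1 := by omega
      have e4 : (k % 6 == 0) = false := by simpa using h6
      rw [e4]
      simp [h6, e1, e2, e3]
  have hocc : ∀ k < 78, occ N m pos neg (6 * J + k % 6) (13 * I + k / 6) =
      bit rows (k % 6) (k / 6) := by
    intro k hk
    rw [occ_eq I J (k % 6) (k / 6) (by omega) (by omega) rfl rfl, hrows]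
  have hdn : ∀ k < 78, dnT P I J (k + 6) = vb P (6 * J + k % 6) (13 * I + k / 6) := by
    intro k hk
    unfold dnT
    have e1 : (k + 6) % 6 = k % 6 := by omega
    have e2 : 13 * I + (k + 6) / 6 - 1 = 13 * I + k / 6 := by omega
    rw [e1, e2]
  have hpos : ∀ k < 78, bit rows (k % 6) (k / 6) = true → 1 ≤ J ∨ k % 6 ≠ 0 := by
    intro k hk hbit
    by_contra hcon
    push Not at hcon
    have := hJ (by omega) (k / 6) (by omega)
    rw [hcon.2] at hbit
    rw [this] at hbit
    exact absurd hbit (by simp)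
  have key := dfs_sound pm crm cdm wm chk (rtT P I J) (dnT P I J) 78 ?_ ?_ ?_ 78 0 rfl ?_
  · exact key
  · intro k hk hp
    rw [hpm k hk, ← hocc k hk] at hp
    refine ⟨?_, ?_, ?_, ?_⟩
    · rw [hlb k hk]
      by_contra hcon
      simp only [Bool.not_eq_false, Bool.and_eq_true, decide_eq_true_eq] at hcon
      have := (h.hb_occ hcon.2).2
      have e : 6 * J + k % 6 - 1 + 1 = 6 * J + k % 6 := by omega
      rw [e, hp] at this
      exact absurd this (by simp)
    · by_contra hcon
      simp only [Bool.not_eq_false] at hcon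
      unfold dnT at hcon
      have := (h.vb_occ hcon).2
      have e : 13 * I + k / 6 - 1 + 1 = 13 * I + k / 6 := by omega
      rw [e, hp] at this
      exact absurd this (by simp)
    · by_contra hcon
      simp only [Bool.not_eq_false] at hcon
      unfold rtT at hcon
      have := (h.hb_occ hcon).1
      rw [hp] at this
      exact absurd this (by simp)
    · by_contra hcon
      simp only [Bool.not_eq_false] at hcon
      rw [hdn k hk] at hcon
      have := (h.vb_occ hcon).1
      rw [hp] at this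
      exact absurd this (by simp)
  · intro k hk hp
    rw [hpm k hk] at hp
    have hp1 := hpos k hk hp
    rw [← hocc k hk] at hp
    have hdeg := h.degree hp (by omega) (by omega) (by omega)
    rw [hlb k hk, hdn k hk]
    unfold dnT rtT
    have e : decide (1 ≤ J ∨ k % 6 ≠ 0) = true := by simpa using hp1
    rw [e, Bool.true_and]
    exact hdeg
  · intro k hk
    refine ⟨fun hr => ?_, fun hd => ?_⟩
    · by_contra hcon
      rw [Bool.not_eq_true] at hcon
      rw [hcr k hk hcon] at hr
      exact absurd hr (by simp)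
    · by_contra hcon
      rw [Bool.not_eq_true] at hcon
      rw [hcd k hk hcon] at hd
      exact absurd hd (by simp)
  · rw [hD]
    exact hdfs

end

end Pool.Agent.Lib.GridHam
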