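import Mathlib
import Pool.Agent.Lib.GridHam.Sound

/-!
Soundness of the reduction, continued: from the finite checks to the satisfying assignment.
-/

namespace Pool.Agent.Lib.GridHam

open Pool.Agent.Lib.MP_17cbde_lc (GridAdj)

variable {N m : ℕ} {pos neg : ℕ → ℕ → Bool} {P : List Pt}

theorem rowsT_int {I J : ℕ} (hI : 1 ≤ I) (hIN : I ≤ N) (hJ : 1 ≤ J) (hJm : J ≤ m) :
    rowsT N m pos neg I J = rowsI (pos I J) (neg I J) := by
  unfold rowsT
  rw [if_neg (by omega), if_pos hIN, if_neg (by omega), if_pos hJm]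

theorem rowsT_left {I : ℕ} (hI : 1 ≤ I) (hIN : I ≤ N) :
    rowsT N m pos neg I 0 = rowsL (I % 2 == 1) := by
  unfold rowsT
  rw [if_neg (by omega), if_pos hIN, if_pos rfl]

theorem rowsT_right {I : ℕ} (hI : 1 ≤ I) (hIN : I ≤ N) :
    rowsT N m pos neg I (m + 1) = rowsR (I % 2 == 0) := by
  unfold rowsT
  rw [if_neg (by omega), if_pos hIN, if_neg (by omega), if_neg (by omega), if_pos rfl]

theorem Setup.border (h : Setup N m pos neg P) {I J r : ℕ} (hI : 1 ≤ I) (hIN : I ≤ N)
    (hJm : J ≤ m) (hr : r < 13) (hu : hb P (6 * J + 5) (13 * I + r) = true) : r = 4 ∨ r = 8 := by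
  obtain ⟨h1, h2⟩ := h.hb_occ hu
  rw [occ_eq I J 5 r (by norm_num) hr rfl rfl] at h1
  rw [occ_eq I (J + 1) 0 r (by norm_num) hr (x := 6 * J + 5 + 1) (by ring) rfl] at h2
  by_contra hcon
  push Not at hcon
  have e4 : (r == 4) = false := by simpa using hcon.1
  have e8 : (r == 8) = false := by simpa using hcon.2
  have hnext : (∃ p n, rowsT N m pos neg I (J + 1) = rowsI p n) ∨
      (∃ u, rowsT N m pos neg I (J + 1) = rowsR u) := by
    rcases Nat.lt_or_ge J m with hlt | hge
    · exact Or.inl ⟨_, _, rowsT_int hI hIN (by omega) (by omega)⟩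
    · have : J = m := by omega
      subst this
      exact Or.inr ⟨_, rowsT_right hI hIN⟩
  rcases Nat.eq_zero_or_pos J with rfl | hJ
  · rw [rowsT_left hI hIN] at h1
    have hb1 := fun p' n' u' => rowsL_border (I % 2 == 1) p' n' u' r hr
    simp only [e4, e8, h1, Bool.false_or, Bool.not_true, Bool.and_eq_true,
      Bool.not_eq_true'] at hb1
    rcases hnext with ⟨p, n, e⟩ | ⟨u, e⟩
    · rw [e, (hb1 p n true).1] at h2
      exact absurd h2 (by simp)
    · rw [e, (hb1 true true u).2] at h2
      exact absurd h2 (by simp)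
  · rw [rowsT_int hI hIN hJ hJm] at h1
    have hb1 := fun p' n' u' => rowsI_border (pos I J) (neg I J) p' n' u' r hr
    simp only [e4, e8, h1, Bool.false_or, Bool.not_true, Bool.and_eq_true,
      Bool.not_eq_true'] at hb1
    rcases hnext with ⟨p, n, e⟩ | ⟨u, e⟩
    · rw [e, (hb1 p n true).1] at h2
      exact absurd h2 (by simp)
    · rw [e, (hb1 true true u).2] at h2
      exact absurd h2 (by simp)

/-- a cell with exactly the two vertical neighbours -/
theorem Setup.forced (h : Setup N m pos neg P) {x y : ℕ} (ho : occ N m pos neg x y = true)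
    (hl : occ N m pos neg (x - 1) y = false) (hr : occ N m pos neg (x + 1) y = false)
    (hx : 1 ≤ x) (hy : 13 ≤ y) (hy' : y < 13 * (N + 1)) :
    vb P x (y - 1) = true ∧ vb P x y = true := by
  have hdeg := h.degree ho hx hy hy'
  have h1 : hb P (x - 1) y = false := by
    by_contra hcon
    simp only [Bool.not_eq_false] at hcon
    have := (h.hb_occ hcon).1
    rw [hl] at this
    exact absurd this (by simp)
  have h2 : hb P x y = false := by
    by_contra hcon
    simp only [Bool.not_eq_false] at hcon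
    have := (h.hb_occ hcon).2
    rw [hr] at this
    exact absurd this (by simp)
  rw [h1, h2] at hdeg
  cases h3 : vb P x (y - 1) <;> cases h4 : vb P x y <;> simp_all

theorem Setup.strands (h : Setup N m pos neg P) {I J c : ℕ} (hI : 1 ≤ I) (hIN : I ≤ N)
    (hJ : 1 ≤ J) (hJm : J ≤ m) (hc : c = 1 ∨ c = 4) : vb P (6 * J + c) (13 * I - 1) = true := by
  have hocc : ∀ d < 6, occ N m pos neg (6 * J + d) (13 * I) = decide (d = 1 ∨ d = 4) := by
    intro d hd
    rw [occ_eq I J d 0 hd (by norm_num) (x := 6 * J + d) (y := 13 * I) rfl rfl,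
      rowsT_int hI hIN hJ hJm, rowsI_first _ _ d hd]
  rcases hc with rfl | rfl
  · refine (h.forced (x := 6 * J + 1) (y := 13 * I) ?_ ?_ ?_ (by omega) (by omega) (by omega)).1
    · rw [hocc 1 (by norm_num)]; rfl
    · exact hocc 0 (by norm_num)
    · exact hocc 2 (by norm_num)
  · refine (h.forced (x := 6 * J + 4) (y := 13 * I) ?_ ?_ ?_ (by omega) (by omega) (by omega)).1
    · rw [hocc 4 (by norm_num)]; rfl
    · exact hocc 3 (by norm_num)
    · exact hocc 5 (by norm_num)

theorem Setup.crm_aux (h : Setup N m pos neg P) {I J k : ℕ} (hI : 1 ≤ I) (hIN : I ≤ N)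
    (hJm : J ≤ m) (rows : List ℕ) (hrows : rowsT N m pos neg I J = rows) (hk : k < 78)
    (hcr : (!(bit rows (k % 6) (k / 6)) ||
      (k % 6 != 5 && !(bit rows (k % 6 + 1) (k / 6))) ||
      (k % 6 == 5 && k / 6 != 4 && k / 6 != 8)) = true) : rtT P I J k = false := by
  by_contra hcon
  simp only [Bool.not_eq_false] at hcon
  unfold rtT at hcon
  obtain ⟨h1, h2⟩ := h.hb_occ hcon
  rw [occ_eq I J (k % 6) (k / 6) (by omega) (by omega) rfl rfl, hrows] at h1
  rw [h1] at hcr
  simp only [Bool.not_true, Bool.false_or, Bool.or_eq_true, Bool.and_eq_true, bne_iff_ne, ne_eq,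
    Bool.not_eq_true', beq_iff_eq] at hcr
  rcases hcr with ⟨h5, h6⟩ | ⟨⟨h5, h6⟩, h7⟩
  · rw [occ_eq I J (k % 6 + 1) (k / 6) (by omega) (by omega) (x := 6 * J + k % 6 + 1)
      (by ring) rfl, hrows, h6] at h2
    exact absurd h2 (by simp)
  · rw [h5] at hcon
    rcases h.border hI hIN hJm (by omega) hcon with h8 | h8
    · exact h6 h8
    · exact h7 h8

theorem Setup.cdm_aux (h : Setup N m pos neg P) {I J k : ℕ}
    (rows : List ℕ) (hrows : rowsT N m pos neg I J = rows) (hk : k < 78)
    (hcr : (!(bit rows (k % 6) (k / 6)) ||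
      (k / 6 != 12 && !(bit rows (k % 6) (k / 6 + 1)))) = true) : dnT P I J (k + 6) = false := by
  by_contra hcon
  simp only [Bool.not_eq_false] at hcon
  have hdn : dnT P I J (k + 6) = vb P (6 * J + k % 6) (13 * I + k / 6) := by
    unfold dnT
    have e1 : (k + 6) % 6 = k % 6 := by omega
    have e2 : 13 * I + (k + 6) / 6 - 1 = 13 * I + k / 6 := by omega
    rw [e1, e2]
  rw [hdn] at hcon
  obtain ⟨h1, h2⟩ := h.vb_occ hcon
  rw [occ_eq I J (k % 6) (k / 6) (by omega) (by omega) rfl rfl, hrows] at h1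
  rw [h1] at hcr
  simp only [Bool.not_true, Bool.false_or, Bool.and_eq_true, bne_iff_ne, ne_eq,
    Bool.not_eq_true'] at hcr
  obtain ⟨h5, h6⟩ := hcr
  rw [occ_eq I J (k % 6) (k / 6 + 1) (by omega) (by omega) (y := 13 * I + k / 6 + 1)
    rfl (by ring), hrows, h6] at h2
  exact absurd h2 (by simp)

theorem Setup.tileI (h : Setup N m pos neg P) {I J : ℕ} (hI : 1 ≤ I) (hIN : I ≤ N)
    (hJ : 1 ≤ J) (hJm : J ≤ m) (top : Bool)
    (h4 : hb P (6 * J - 1) (13 * I + 4) = top) (h8 : hb P (6 * J - 1) (13 * I + 8) = !top) :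
    leafI (bif top then pos I J else neg I J) top (pmI (pos I J) (neg I J))
      (maskOf (rtT P I J) 78) (maskOf (dnT P I J) 84) = true := by
  have hrows := rowsT_int (pos := pos) (neg := neg) hI hIN hJ hJm
  refine h.tile_dfs hI hIN _ hrows (by omega) (pmI (pos I J) (neg I J)) (crmI (pos I J) (neg I J))
    (cdmI (pos I J) (neg I J)) (2 ^ wOf top) 18
    (leafI (bif top then pos I J else neg I J) top (pmI (pos I J) (neg I J)))
    (pmI_spec _ _) ?_ ?_ ?_ ?_ (by norm_num) (checkI_true _ _ _)
  · intro k hk hc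
    have := crmI_spec (pos I J) (neg I J) k hk
    rw [hc, Bool.false_or] at this
    exact h.crm_aux hI hIN hJm _ hrows hk this
  · intro k hk hc
    have := cdmI_spec (pos I J) (neg I J) k hk
    rw [hc, Bool.false_or] at this
    exact h.cdm_aux _ hrows hk this
  · intro r hr
    have e1 : decide (1 ≤ J) = true := by simpa using hJ
    rw [e1, Bool.true_and]
    obtain ⟨J, rfl⟩ : ∃ J', J = J' + 1 := ⟨J - 1, by omega⟩
    have e2 : 6 * (J + 1) - 1 = 6 * J + 5 := by omega
    rw [e2] at h4 h8 ⊢
    by_cases hr4 : r = 4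
    · subst hr4
      rw [h4]
      cases top <;> decide
    · by_cases hr8 : r = 8
      · subst hr8
        rw [h8]
        cases top <;> decide
      · have h9 : hb P (6 * J + 5) (13 * I + r) = false := by
          by_contra hcon
          simp only [Bool.not_eq_false] at hcon
          have := h.border hI hIN (by omega) hr hcon
          omega
        rw [h9, Nat.testBit_two_pow]
        cases top <;> simp [wOf] <;> omega
  · intro j hj
    unfold dnT
    have e1 : j % 6 = j := Nat.mod_eq_of_lt hj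
    have e2 : 13 * I + j / 6 - 1 = 13 * I - 1 := by omega
    rw [e1, e2]
    by_cases hc : j = 1 ∨ j = 4
    · rw [h.strands hI hIN hJ hJm hc]
      rcases hc with rfl | rfl <;> decide
    · have h9 : vb P (6 * J + j) (13 * I - 1) = false := by
        by_contra hcon
        simp only [Bool.not_eq_false] at hcon
        have h10 := (h.vb_occ hcon).2
        have e : 13 * I - 1 + 1 = 13 * I := by omega
        rw [e, occ_eq I J j 0 hj (by norm_num) (x := 6 * J + j) (y := 13 * I) rfl rfl, hrows,
          rowsI_first _ _ j hj] at h10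
        simp only [decide_eq_true_eq] at h10
        exact hc h10
      rw [h9]
      interval_cases j <;> first | decide | (exfalso; omega)

end Pool.Agent.Lib.GridHam
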