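import Mathlib
import Pool.Agent.Lib.GridHam.Sound2

/-!
Soundness of the reduction, final part.
-/

namespace Pool.Agent.Lib.GridHam

open Pool.Agent.Lib.MP_17cbde_lc (GridAdj)

variable {N m : ℕ} {pos neg : ℕ → ℕ → Bool} {P : List Pt}

/-- the upper strands of the tile are joined inside the tile -/
def ClosedUp (P : List Pt) (I J : ℕ) : Prop :=
  ∃ Z : Set Pt, (∀ a ∈ Z, 6 ≤ a.1) ∧ (6 * J + 1, 13 * I) ∈ Z ∧ (6 * J + 4, 13 * I) ∈ Z ∧
    ∀ a ∈ Z, ∀ b, used P a b → b ∈ Z ∨ b = (6 * J + 1, 13 * I - 1) ∨ b = (6 * J + 4, 13 * I - 1)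

/-- the lower strands of the tile are joined inside the tile -/
def ClosedDown (P : List Pt) (I J : ℕ) : Prop :=
  ∃ Z : Set Pt, (∀ a ∈ Z, 6 ≤ a.1) ∧ (6 * J + 1, 13 * I + 12) ∈ Z ∧
    (6 * J + 4, 13 * I + 12) ∈ Z ∧
    ∀ a ∈ Z, ∀ b, used P a b → b ∈ Z ∨ b = (6 * J + 1, 13 * I + 13) ∨
      b = (6 * J + 4, 13 * I + 13)

/-- used edges inside a tile -/
def Edge (P : List Pt) (I J k k' : ℕ) : Prop :=
  (k' = k + 1 ∧ k % 6 ≠ 5 ∧ rtT P I J k = true) ∨ (k = k' + 1 ∧ k' % 6 ≠ 5 ∧ rtT P I J k' = true) ∨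
  (k' = k + 6 ∧ dnT P I J (k + 6) = true) ∨ (k = k' + 6 ∧ dnT P I J (k' + 6) = true)

theorem Edge.symm {I J k k' : ℕ} (h : Edge P I J k k') : Edge P I J k' k := by
  unfold Edge at *
  tauto

/-- cell number `k` of a tile -/
def cell (I J k : ℕ) : Pt := (6 * J + k % 6, 13 * I + k / 6)

/-- used right edges inside the tile -/
noncomputable def RiT (P : List Pt) (I J : ℕ) : ℕ := maskOf (rtT P I J) 78 &&& inner

/-- used lower edges inside the tile -/
noncomputable def DiT (P : List Pt) (I J : ℕ) : ℕ := (maskOf (dnT P I J) 84 >>> 6) &&& (2 ^ 72 - 1)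

theorem RiT_bit {I J k : ℕ} (hk : k < 78) :
    (RiT P I J).testBit k = (rtT P I J k && decide (k % 6 ≠ 5)) := by
  unfold RiT
  rw [Nat.testBit_land, testBit_maskOf, inner_spec k hk]
  simp [hk]

theorem DiT_bit {I J k : ℕ} (hk : k < 72) :
    (DiT P I J).testBit k = dnT P I J (k + 6) := by
  unfold DiT
  rw [Nat.testBit_land, Nat.testBit_shiftRight, testBit_maskOf, Nat.testBit_two_pow_sub_one]
  have h1 : k + 6 < 84 := by omega
  simp [hk, h1, add_comm]

theorem step_closed {I J S k k' : ℕ} (hS : step (RiT P I J) (DiT P I J) S = S) (hk : k < 78)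
    (hk' : k' < 78) (he : Edge P I J k k') (hb : S.testBit k = true) : S.testBit k' = true := by
  have key : ∀ j, ((S.testBit j || (S &&& RiT P I J).testBit (j - 1) && decide (1 ≤ j)) ||
      (S.testBit (1 + j) && (RiT P I J).testBit j) ||
      ((S &&& DiT P I J).testBit (j - 6) && decide (6 ≤ j)) ||
      (S.testBit (6 + j) && (DiT P I J).testBit j)) = S.testBit j := by
    intro j
    conv_rhs => rw [← hS]
    unfold step
    simp only [Nat.testBit_lor, Nat.testBit_shiftLeft, Nat.testBit_land, Nat.testBit_shiftRight,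
      ge_iff_le]
    simp only [Bool.and_comm]
  have hk1 := key k'
  rcases he with ⟨e, h6, h7⟩ | ⟨e, h6, h7⟩ | ⟨e, h7⟩ | ⟨e, h7⟩
  · rw [← hk1]
    subst e
    rw [Nat.add_sub_cancel, Nat.testBit_land, hb, RiT_bit hk, h7]
    simp [h6]
  · rw [← hk1]
    subst e
    rw [add_comm 1 k', hb, RiT_bit hk', h7]
    simp [h6]
  · rw [← hk1]
    subst e
    have e6 : k + 6 - 6 = k := by omega
    rw [e6, Nat.testBit_land S (DiT P I J) k, hb, DiT_bit (by omega), h7]
    simp
  · rw [← hk1]
    subst e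
    rw [add_comm 6 k', hb, DiT_bit (by omega), h7]
    simp

theorem Setup.nbr_cases (h : Setup N m pos neg P) {I J : ℕ} (hI : 1 ≤ I) (hIN : I ≤ N)
    (hJ : 1 ≤ J) (hJm : J ≤ m) (top : Bool)
    (h4 : hb P (6 * J - 1) (13 * I + 4) = top) (h8 : hb P (6 * J - 1) (13 * I + 8) = !top)
    (h4' : hb P (6 * J + 5) (13 * I + 4) = top) (h8' : hb P (6 * J + 5) (13 * I + 8) = !top)
    {k : ℕ} (hk : k < 78) {b : Pt} (hu : used P (cell I J k) b) :
    (∃ k' < 78, b = cell I J k' ∧ Edge P I J k k') ∨ k = wOf top ∨ k = eOf top ∨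
      ((k = 73 ∨ k = 76) ∧ b = (6 * J + (k - 72), 13 * I + 13)) ∨
      ((k = 1 ∨ k = 4) ∧ b = (6 * J + k, 13 * I - 1)) := by
  have hadj := used_adj h.chain hu
  obtain ⟨x, y⟩ := b
  have hrows := rowsT_int (pos := pos) (neg := neg) hI hIN hJ hJm
  have hcase : (x = 6 * J + k % 6 + 1 ∧ y = 13 * I + k / 6) ∨
      (x + 1 = 6 * J + k % 6 ∧ y = 13 * I + k / 6) ∨
      (x = 6 * J + k % 6 ∧ y = 13 * I + k / 6 + 1) ∨
      (x = 6 * J + k % 6 ∧ y + 1 = 13 * I + k / 6) := by
    unfold cell GridAdj at hadj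
    simp only at hadj
    omega
  rcases hcase with ⟨rfl, rfl⟩ | ⟨e1, rfl⟩ | ⟨rfl, rfl⟩ | ⟨rfl, e1⟩
  · -- right
    have hr : rtT P I J k = true := hb_iff.2 hu
    by_cases h5 : k % 6 = 5
    · right; right; left
      unfold rtT at hr
      rw [h5] at hr
      rcases h.border hI hIN hJm (by omega) hr with h9 | h9
      · rw [h9, h4'] at hr
        subst hr
        simp only [eOf, cond_true]
        omega
      · rw [h9, h8'] at hr
        have : top = false := by simpa using hr
        subst this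
        simp only [eOf, cond_false]
        omega
    · left
      refine ⟨k + 1, by omega, ?_, Or.inl ⟨rfl, h5, hr⟩⟩
      unfold cell
      simp only [Prod.mk.injEq]
      omega
  · -- left
    have hr : hb P x (13 * I + k / 6) = true := by
      rw [hb_iff, e1]
      exact used_symm hu
    by_cases h5 : k % 6 = 0
    · right; left
      obtain ⟨J, rfl⟩ : ∃ J', J = J' + 1 := ⟨J - 1, by omega⟩
      have e2 : x = 6 * J + 5 := by omega
      have e3 : 6 * (J + 1) - 1 = 6 * J + 5 := by omega
      rw [e3] at h4 h8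
      rw [e2] at hr
      rcases h.border hI hIN (by omega) (by omega) hr with h9 | h9
      · rw [h9, h4] at hr
        subst hr
        simp only [wOf, cond_true]
        omega
      · rw [h9, h8] at hr
        have : top = false := by simpa using hr
        subst this
        simp only [wOf, cond_false]
        omega
    · left
      refine ⟨k - 1, by omega, ?_, Or.inr (Or.inl ⟨by omega, by omega, ?_⟩)⟩
      · unfold cell
        simp only [Prod.mk.injEq]
        omega
      · unfold rtT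
        have e2 : 6 * J + (k - 1) % 6 = x := by omega
        have e3 : 13 * I + (k - 1) / 6 = 13 * I + k / 6 := by omega
        rw [e2, e3]
        exact hr
  · -- down
    have hr : vb P (6 * J + k % 6) (13 * I + k / 6) = true := vb_iff.2 hu
    by_cases h12 : k / 6 = 12
    · right; right; right; left
      have h1 := (h.vb_occ hr).1
      rw [occ_eq I J (k % 6) (k / 6) (by omega) (by omega) rfl rfl, hrows, h12,
        rowsI_last _ _ (k % 6) (by omega)] at h1
      simp only [decide_eq_true_eq] at h1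
      simp only [Prod.mk.injEq]
      omega
    · left
      refine ⟨k + 6, by omega, ?_, Or.inr (Or.inr (Or.inl ⟨rfl, ?_⟩))⟩
      · unfold cell
        simp only [Prod.mk.injEq]
        omega
      · unfold dnT
        have e2 : 6 * J + (k + 6) % 6 = 6 * J + k % 6 := by omega
        have e3 : 13 * I + (k + 6) / 6 - 1 = 13 * I + k / 6 := by omega
        rw [e2, e3]
        exact hr
  · -- up
    have hr : vb P (6 * J + k % 6) y = true := by
      rw [vb_iff, e1]
      exact used_symm hu
    by_cases h12 : k / 6 = 0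
    · right; right; right; right
      have h1 := (h.vb_occ hr).2
      rw [e1, occ_eq I J (k % 6) (k / 6) (by omega) (by omega) rfl rfl, hrows, h12,
        rowsI_first _ _ (k % 6) (by omega)] at h1
      simp only [decide_eq_true_eq] at h1
      simp only [Prod.mk.injEq]
      omega
    · left
      refine ⟨k - 6, by omega, ?_, Or.inr (Or.inr (Or.inr ⟨by omega, ?_⟩))⟩
      · unfold cell
        simp only [Prod.mk.injEq]
        omega
      · unfold dnT
        have e2 : 6 * J + (k - 6 + 6) % 6 = 6 * J + k % 6 := by omega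
        have e3 : 13 * I + (k - 6 + 6) / 6 - 1 = y := by omega
        rw [e2, e3]
        exact hr

/-- a set of cells of a tile -/
def cellSet (I J S : ℕ) : Set Pt := {a | ∃ k < 78, S.testBit k = true ∧ a = cell I J k}

theorem Setup.tile_concl (h : Setup N m pos neg P) {I J : ℕ} (hI : 1 ≤ I) (hIN : I ≤ N)
    (hJ : 1 ≤ J) (hJm : J ≤ m) (top : Bool)
    (h4 : hb P (6 * J - 1) (13 * I + 4) = top) (h8 : hb P (6 * J - 1) (13 * I + 8) = !top) :
    (hb P (6 * J + 5) (13 * I + 4) = top ∧ hb P (6 * J + 5) (13 * I + 8) = !top) ∧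
    ((bif top then pos I J else neg I J) = true ∨ ClosedUp P I J ∨ ClosedDown P I J) := by
  have hleaf := h.tileI hI hIN hJ hJm top h4 h8
  have hrows := rowsT_int (pos := pos) (neg := neg) hI hIN hJ hJm
  have hb29 : (maskOf (rtT P I J) 78).testBit 29 = hb P (6 * J + 5) (13 * I + 4) := by
    rw [testBit_maskOf]; rfl
  have hb53 : (maskOf (rtT P I J) 78).testBit 53 = hb P (6 * J + 5) (13 * I + 8) := by
    rw [testBit_maskOf]; rfl
  have hR : maskOf (rtT P I J) 78 &&& inner = RiT P I J := rfl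
  have hD : (maskOf (dnT P I J) 84 >>> 6) &&& (2 ^ 72 - 1) = DiT P I J := rfl
  unfold leafI at hleaf
  simp only [hR, hD, hb29, hb53] at hleaf
  rw [Bool.and_eq_true, Bool.and_eq_true, beq_iff_eq, beq_iff_eq, Bool.or_eq_true,
    Bool.or_eq_true, Bool.or_eq_true] at hleaf
  -- exclude the last alternative
  have hexcl : ∀ C : ℕ, (step (RiT P I J) (DiT P I J) C == C && (C.testBit 1 && C.testBit 4 &&
      C.testBit 73 && C.testBit 76 && C.testBit (wOf top) && C.testBit (eOf top)) &&
      !((C &&& pmI (pos I J) (neg I J)) == pmI (pos I J) (neg I J))) = true →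
      (hb P (6 * J + 5) (13 * I + 4) = top → hb P (6 * J + 5) (13 * I + 8) = (!top) → False) := by
    intro C hC h4' h8'
    simp only [Bool.and_eq_true, beq_iff_eq, Bool.not_eq_true', beq_eq_false_iff_ne, ne_eq] at hC
    obtain ⟨⟨hst, ⟨⟨⟨⟨⟨c1, c4⟩, c73⟩, c76⟩, cw⟩, ce⟩⟩, hne⟩ := hC
    -- a present cell outside `C`
    obtain ⟨k, hk1, hk2⟩ : ∃ k, (pmI (pos I J) (neg I J)).testBit k = true ∧
        C.testBit k = false := by
      by_contra hcon
      push Not at hcon
      apply hne
      apply Nat.eq_of_testBit_eq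
      intro j
      rw [Nat.testBit_land]
      cases hj : (pmI (pos I J) (neg I J)).testBit j with
      | false => simp
      | true => simp [Bool.eq_true_of_not_eq_false (hcon j hj)]
    have hk : k < 78 := by
      by_contra hcon
      have h1 : pmI (pos I J) (neg I J) < 2 ^ 78 := by
        have : ∀ a b : Bool, pmI a b < 2 ^ 78 := by decide +kernel
        exact this _ _
      have h2 : (2 : ℕ) ^ 78 ≤ 2 ^ k := Nat.pow_le_pow_right (by norm_num) (by omega)
      rw [Nat.testBit_lt_two_pow (by omega)] at hk1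
      exact absurd hk1 (by simp)
    have hcell : ∀ k < 78, cell I J k ∈ P ↔ (pmI (pos I J) (neg I J)).testBit k = true := by
      intro k hk
      unfold cell
      rw [h.mem, occ_eq I J (k % 6) (k / 6) (by omega) (by omega) rfl rfl, hrows, pmI_spec _ _ k hk]
    have hclosed := closed_all (P := P)
      (Z := {a | ∃ k < 78, (pmI (pos I J) (neg I J)).testBit k = true ∧ C.testBit k = false ∧
        a = cell I J k}) ?_ (a := cell I J k) ⟨k, hk, hk1, hk2, rfl⟩ ((hcell k hk).2 hk1)
        (3, 12) ?_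
    · obtain ⟨k', hk', -, -, e⟩ := hclosed
      unfold cell at e
      simp only [Prod.mk.injEq] at e
      omega
    · rintro a ⟨k, hk, hk1, hk2, rfl⟩ b hu
      rcases h.nbr_cases hI hIN hJ hJm top h4 h8 h4' h8' hk hu with
        ⟨k', hk', rfl, he⟩ | hkk | hkk | ⟨hkk | hkk, -⟩ | ⟨hkk | hkk, -⟩
      · refine ⟨k', hk', (hcell k' hk').1 (used_mem hu).2, ?_, rfl⟩
        by_contra hcon
        simp only [Bool.not_eq_false] at hcon
        rw [step_closed hst hk' hk he.symm hcon] at hk2
        exact absurd hk2 (by simp)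
      all_goals
        subst hkk
        simp_all
    · rw [h.mem, occ_eq 0 0 3 12 (by norm_num) (by norm_num) rfl rfl]
      simp [rowsT, bit]
      decide
  -- the lanes of the E port
  obtain ⟨⟨h4', h8'⟩, hleaf⟩ := hleaf
  refine ⟨⟨h4', h8'⟩, ?_⟩
  rcases hleaf with hleaf | hleaf
  · rcases hleaf with (hsat | hA) | hB
    · exact Or.inl hsat
    · right; left
      simp only [Bool.and_eq_true, beq_iff_eq, Bool.not_eq_true'] at hA
      obtain ⟨hst, ⟨⟨⟨⟨a1, a4⟩, aw⟩, ae⟩, a73⟩, a76⟩ := hA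
      refine ⟨cellSet I J (flood (RiT P I J) (DiT P I J) 60 (2 ^ 1 + 2 ^ 4)), ?_, ?_, ?_, ?_⟩
      · rintro a ⟨k, hk, -, rfl⟩
        unfold cell
        simp only
        omega
      · exact ⟨1, by norm_num, a1, rfl⟩
      · exact ⟨4, by norm_num, a4, rfl⟩
      · rintro a ⟨k, hk, hk1, rfl⟩ b hu
        rcases h.nbr_cases hI hIN hJ hJm top h4 h8 h4' h8' hk hu with
          ⟨k', hk', rfl, he⟩ | hkk | hkk | ⟨hkk | hkk, -⟩ | ⟨hkk | hkk, hb⟩
        · exact Or.inl ⟨k', hk', step_closed hst hk hk' he hk1, rfl⟩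
        · subst hkk; rw [aw] at hk1; exact absurd hk1 (by simp)
        · subst hkk; rw [ae] at hk1; exact absurd hk1 (by simp)
        · subst hkk; rw [a73] at hk1; exact absurd hk1 (by simp)
        · subst hkk; rw [a76] at hk1; exact absurd hk1 (by simp)
        · subst hkk; exact Or.inr (Or.inl hb)
        · subst hkk; exact Or.inr (Or.inr hb)
    · right; right
      simp only [Bool.and_eq_true, beq_iff_eq, Bool.not_eq_true'] at hB
      obtain ⟨hst, ⟨⟨⟨⟨a73, a76⟩, aw⟩, ae⟩, a1⟩, a4⟩ := hB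
      refine ⟨cellSet I J (flood (RiT P I J) (DiT P I J) 60 (2 ^ 73 + 2 ^ 76)), ?_, ?_, ?_, ?_⟩
      · rintro a ⟨k, hk, -, rfl⟩
        unfold cell
        simp only
        omega
      · exact ⟨73, by norm_num, a73, rfl⟩
      · exact ⟨76, by norm_num, a76, rfl⟩
      · rintro a ⟨k, hk, hk1, rfl⟩ b hu
        rcases h.nbr_cases hI hIN hJ hJm top h4 h8 h4' h8' hk hu with
          ⟨k', hk', rfl, he⟩ | hkk | hkk | ⟨hkk | hkk, hb⟩ | ⟨hkk | hkk, -⟩
        · exact Or.inl ⟨k', hk', step_closed hst hk hk' he hk1, rfl⟩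
        · subst hkk; rw [aw] at hk1; exact absurd hk1 (by simp)
        · subst hkk; rw [ae] at hk1; exact absurd hk1 (by simp)
        · subst hkk; exact Or.inr (Or.inl hb)
        · subst hkk; exact Or.inr (Or.inr hb)
        · subst hkk; rw [a1] at hk1; exact absurd hk1 (by simp)
        · subst hkk; rw [a4] at hk1; exact absurd hk1 (by simp)
  · exact (hexcl _ hleaf h4' h8').elim

end Pool.Agent.Lib.GridHam
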