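import Mathlib
import Pool.Agent.Lib.GridHam.Board
import Pool.Agent.Lib.GridHam.Paths
import Pool.Agent.Lib.GridHam.Sound3

/-!
Completeness of the reduction: assembling the Hamiltonian path.
-/

namespace Pool.Agent.Lib.GridHam

open Pool.Agent.Lib.MP_17cbde_lc (GridAdj GridHamPath)

/-- `l` is a path from `a` to `b` -/
def Seg (a : Pt) (l : List Pt) (b : Pt) : Prop :=
  l.head? = some a ∧ l.getLast? = some b ∧ l.IsChain GridAdj

theorem Seg.append {a b c d : Pt} {l l' : List Pt} (h : Seg a l b) (hbc : GridAdj b c)
    (h' : Seg c l' d) : Seg a (l ++ l') d := by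
  obtain ⟨h1, h2, h3⟩ := h
  obtain ⟨h4, h5, h6⟩ := h'
  refine ⟨?_, ?_, ?_⟩
  · rw [List.head?_append, h1]; rfl
  · rw [List.getLast?_append, h5]; rfl
  · rw [List.isChain_append]
    refine ⟨h3, h6, ?_⟩
    intro x hx y hy
    rw [h2] at hx
    rw [h4] at hy
    cases hx
    cases hy
    exact hbc

theorem Seg.reverse {a b : Pt} {l : List Pt} (h : Seg a l b) : Seg b l.reverse a := by
  obtain ⟨h1, h2, h3⟩ := h
  refine ⟨?_, ?_, ?_⟩
  · rw [List.head?_reverse, h2]
  · rw [List.getLast?_reverse, h1]
  · rw [List.isChain_reverse]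
    exact h3.imp fun a b hab => GridAdj.symm' hab

theorem adjK_adj {k k' : ℕ} (h : adjK k k' = true) (I J : ℕ) :
    GridAdj (cell I J k) (cell I J k') := by
  unfold adjK at h
  simp only [Bool.or_eq_true, Bool.and_eq_true, beq_iff_eq] at h
  unfold GridAdj cell
  simp only
  omega

theorem chainB_chain {l : List ℕ} (h : chainB l = true) (I J : ℕ) :
    (l.map (cell I J)).IsChain GridAdj := by
  induction l with
  | nil => simp
  | cons a l ih =>
    cases l with
    | nil => simp
    | cons b l =>
      simp only [chainB, Bool.and_eq_true] at h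
      simp only [List.map_cons, List.isChain_cons_cons]
      exact ⟨adjK_adj h.1 I J, ih h.2⟩

theorem okSeg_seg {a b : ℕ} {l : List ℕ} (h : okSeg a l b = true) (I J : ℕ) :
    Seg (cell I J a) (l.map (cell I J)) (cell I J b) := by
  unfold okSeg at h
  simp only [Bool.and_eq_true, beq_iff_eq] at h
  refine ⟨?_, ?_, chainB_chain h.2 I J⟩
  · rw [List.head?_map, h.1.1]; rfl
  · rw [List.getLast?_map, h.1.2]; rfl

section

variable (N m : ℕ) (pos neg : ℕ → ℕ → Bool) (α : ℕ → Bool) (r : ℕ → ℕ)

/-- the state of the tile in row `I` and column `J` -/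
def stOf (I J : ℕ) : St := if I < r J then St.U else if I = r J then St.B else St.L

/-- the closed part at the bottom of the tile -/
def rd (I J : ℕ) : List Pt :=
  if I = 0 then [73, 74, 75, 76].map (cell I J)
  else (path (pos I J) (neg I J) (α I) St.U).2.2.map (cell I J)

/-- the closed part at the top of the tile -/
def ru (I J : ℕ) : List Pt :=
  if I = N + 1 then [1, 2, 3, 4].map (cell I J)
  else (path (pos I J) (neg I J) (α I) St.L).2.2.map (cell I J)

/-- the piece of the Hamiltonian path visiting the tile -/
def visit (I J : ℕ) : List Pt :=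
  let p := path (pos I J) (neg I J) (α I) (stOf r I J)
  if I < r J then
    p.1.map (cell I J) ++ (rd pos neg α (I - 1) J ++ p.2.1.map (cell I J))
  else if I = r J then
    if α I then
      p.1.map (cell I J) ++ (ru N pos neg α (I + 1) J ++ (p.2.1.map (cell I J) ++
        (rd pos neg α (I - 1) J ++ p.2.2.map (cell I J))))
    else
      p.1.map (cell I J) ++ (rd pos neg α (I - 1) J ++ (p.2.1.map (cell I J) ++
        (ru N pos neg α (I + 1) J ++ p.2.2.map (cell I J))))
  else
    p.1.map (cell I J) ++ (ru N pos neg α (I + 1) J ++ p.2.1.map (cell I J))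

variable {N m pos neg α r}

theorem rd_seg (I J : ℕ) : Seg (cell I J 73) (rd pos neg α I J) (cell I J 76) := by
  unfold rd
  split_ifs with h
  · exact okSeg_seg (by decide) I J
  · have := path_U (pos I J) (neg I J) (α I)
    simp only [Bool.and_eq_true] at this
    exact okSeg_seg this.2 I J

theorem ru_seg (I J : ℕ) : Seg (cell I J 1) (ru N pos neg α I J) (cell I J 4) := by
  unfold ru
  split_ifs with h
  · exact okSeg_seg (by decide) I J
  · have := path_L (pos I J) (neg I J) (α I)
    simp only [Bool.and_eq_true] at this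
    exact okSeg_seg this.2 I J

theorem adj_up {I J c : ℕ} (hI : 1 ≤ I) (hc : c < 6) :
    GridAdj (cell I J c) (cell (I - 1) J (72 + c)) := by
  unfold GridAdj cell
  simp only
  omega

theorem adj_down {I J c : ℕ} (hc : c < 6) :
    GridAdj (cell I J (72 + c)) (cell (I + 1) J c) := by
  unfold GridAdj cell
  simp only
  omega

theorem visit_seg {I J : ℕ} (hI : 1 ≤ I)
    (hr : I = r J → (bif α I then pos I J else neg I J) = true) :
    Seg (cell I J (wOf' (α I))) (visit N pos neg α r I J) (cell I J (eOf' (α I))) := by
  unfold visit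
  simp only
  have e1 := adj_up (I := I) (J := J) (c := 1) hI (by norm_num)
  have e4 := adj_up (I := I) (J := J) (c := 4) hI (by norm_num)
  have d1 := adj_down (I := I) (J := J) (c := 1) (by norm_num)
  have d4 := adj_down (I := I) (J := J) (c := 4) (by norm_num)
  norm_num at e1 e4 d1 d4
  have hrd := rd_seg (pos := pos) (neg := neg) (α := α) (I - 1) J
  have hru := ru_seg (N := N) (pos := pos) (neg := neg) (α := α) (I + 1) J
  split_ifs with h1 h2 h3
  · have hs : stOf r I J = St.U := by unfold stOf; rw [if_pos h1]
    rw [hs]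
    have := path_U (pos I J) (neg I J) (α I)
    simp only [Bool.and_eq_true] at this
    obtain ⟨⟨p1, p2⟩, -⟩ := this
    exact (okSeg_seg p1 I J).append e1 (hrd.append (GridAdj.symm' e4) (okSeg_seg p2 I J))
  · have hs : stOf r I J = St.B := by unfold stOf; rw [if_neg h1, if_pos h2]
    have hp := hr h2
    rw [h3, cond_true] at hp
    rw [hs, h3, hp]
    have := path_B_top (neg I J)
    simp only [Bool.and_eq_true] at this
    obtain ⟨⟨p1, p2⟩, p3⟩ := this
    exact (okSeg_seg p1 I J).append d1 (hru.append (GridAdj.symm' d4) ((okSeg_seg p2 I J).append e1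
      (hrd.append (GridAdj.symm' e4) (okSeg_seg p3 I J))))
  · have hs : stOf r I J = St.B := by unfold stOf; rw [if_neg h1, if_pos h2]
    have hp := hr h2
    have h3' : α I = false := by simpa using h3
    rw [h3', cond_false] at hp
    rw [hs, h3', hp]
    have := path_B_bot (pos I J)
    simp only [Bool.and_eq_true] at this
    obtain ⟨⟨p1, p2⟩, p3⟩ := this
    exact (okSeg_seg p1 I J).append e1 (hrd.append (GridAdj.symm' e4) ((okSeg_seg p2 I J).append d1
      (hru.append (GridAdj.symm' d4) (okSeg_seg p3 I J))))
  · have hs : stOf r I J = St.L := by unfold stOf; rw [if_neg h1, if_neg h2]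
    rw [hs]
    have := path_L (pos I J) (neg I J) (α I)
    simp only [Bool.and_eq_true] at this
    obtain ⟨⟨p1, p2⟩, -⟩ := this
    exact (okSeg_seg p1 I J).append d1 (hru.append (GridAdj.symm' d4) (okSeg_seg p2 I J))

variable (N m pos neg α r)

/-- left end, and the first `j` columns of row `I` -/
def rowTo (I j : ℕ) : List Pt :=
  (pathL (I % 2 == 1) (α I)).map (cell I 0) ++
    (List.range j).flatMap fun J => visit N pos neg α r I (J + 1)

/-- the whole row `I`, from left to right -/
def rowP (I : ℕ) : List Pt :=
  rowTo N pos neg α r I m ++ (pathR (I % 2 == 0) (α I)).map (cell I (m + 1))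

/-- start cell and the first `2 n` rows -/
def pathTo (n : ℕ) : List Pt :=
  cell 0 0 75 :: (List.range n).flatMap fun i =>
    rowP N m pos neg α r (2 * i + 1) ++ (rowP N m pos neg α r (2 * i + 2)).reverse

variable {N m pos neg α r}

theorem rowTo_seg {I : ℕ} (hI : 1 ≤ I)
    (hr : ∀ J, 1 ≤ J → J ≤ m → I = r J → (bif α I then pos I J else neg I J) = true) :
    ∀ j ≤ m, Seg (cell I 0 (bif (I % 2 == 1) then 3 else 75)) (rowTo N pos neg α r I j)
      (cell I j (eOf' (α I))) := by
  intro j
  induction j with
  | zero =>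
    intro _
    unfold rowTo
    have := okSeg_L (I % 2 == 1) (α I)
    rw [Bool.and_eq_true] at this
    simpa using okSeg_seg this.1 I 0
  | succ j ih =>
    intro hj
    have ih' := ih (by omega)
    have : rowTo N pos neg α r I (j + 1) =
        rowTo N pos neg α r I j ++ visit N pos neg α r I (j + 1) := by
      unfold rowTo
      rw [List.range_succ, List.flatMap_append, List.flatMap_singleton, List.append_assoc]
    rw [this]
    refine ih'.append ?_ (visit_seg hI (hr (j + 1) (by omega) hj))
    unfold GridAdj cell eOf' wOf'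
    cases α I <;> simp <;> omega

theorem rowP_seg {I : ℕ} (hI : 1 ≤ I)
    (hr : ∀ J, 1 ≤ J → J ≤ m → I = r J → (bif α I then pos I J else neg I J) = true) :
    Seg (cell I 0 (bif (I % 2 == 1) then 3 else 75)) (rowP N m pos neg α r I)
      (cell I (m + 1) (bif (I % 2 == 0) then 1 else 73)) := by
  unfold rowP
  have := okSeg_R (I % 2 == 0) (α I)
  rw [Bool.and_eq_true] at this
  refine (rowTo_seg hI hr m le_rfl).append ?_ (okSeg_seg this.1 I (m + 1))
  unfold GridAdj cell eOf' wOf'
  cases α I <;> simp <;> omega

theorem pathTo_seg 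
    (hr : ∀ I J, 1 ≤ J → J ≤ m → I = r J → (bif α I then pos I J else neg I J) = true) :
    ∀ n, Seg (cell 0 0 75) (pathTo N m pos neg α r n) (cell (2 * n) 0 75) := by
  intro n
  induction n with
  | zero => exact ⟨by simp [pathTo], by simp [pathTo], by simp [pathTo]⟩
  | succ n ih =>
    have : pathTo N m pos neg α r (n + 1) = pathTo N m pos neg α r n ++
        (rowP N m pos neg α r (2 * n + 1) ++ (rowP N m pos neg α r (2 * n + 2)).reverse) := by
      unfold pathTo
      rw [List.range_succ, List.flatMap_append, List.flatMap_singleton, List.cons_append]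
    rw [this]
    have h1 := rowP_seg (N := N) (m := m) (pos := pos) (neg := neg) (α := α) (r := r)
      (I := 2 * n + 1) (by omega) (fun J => hr _ J)
    have h2 := rowP_seg (N := N) (m := m) (pos := pos) (neg := neg) (α := α) (r := r)
      (I := 2 * n + 2) (by omega) (fun J => hr _ J)
    have o1 : ((2 * n + 1) % 2 == 1) = true := by simp
    have o2 : ((2 * n + 1) % 2 == 0) = false := by simp
    have o3 : ((2 * n + 2) % 2 == 1) = false := by simp
    have o4 : ((2 * n + 2) % 2 == 0) = true := by simp
    rw [o1, o2] at h1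
    rw [o3, o4] at h2
    simp only [cond_true, cond_false] at h1 h2
    refine ih.append ?_ (h1.append ?_ h2.reverse)
    · exact Or.inl ⟨rfl, Or.inl (by unfold cell; simp only; omega)⟩
    · exact Or.inl ⟨rfl, Or.inl (by unfold cell; simp only; omega)⟩

end

end Pool.Agent.Lib.GridHam
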