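import Mathlib
import Pool.Agent.Lib.GridHam.Complete

/-!
Completeness of the reduction: the assembled path visits every cell exactly once.
-/

namespace Pool.Agent.Lib.GridHam

open Pool.Agent.Lib.MP_17cbde_lc (GridAdj GridHamPath)

theorem coe_flatMap_range (f : ℕ → List Pt) (n : ℕ) :
    (((List.range n).flatMap f : List Pt) : Multiset Pt) =
      ∑ i ∈ Finset.range n, ((f i : List Pt) : Multiset Pt) := by
  induction n with
  | zero => simp
  | succ n ih =>
    rw [List.range_succ, List.flatMap_append, List.flatMap_singleton, ← Multiset.coe_add, ih,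
      Finset.sum_range_succ]

theorem sum_pairs {M : Type*} [AddCommMonoid M] (f : ℕ → M) (n : ℕ) :
    ∑ i ∈ Finset.range n, (f (2 * i) + f (2 * i + 1)) = ∑ i ∈ Finset.range (2 * n), f i := by
  induction n with
  | zero => simp
  | succ n ih =>
    rw [Finset.sum_range_succ, ih]
    have : 2 * (n + 1) = 2 * n + 1 + 1 := by ring
    rw [this, Finset.sum_range_succ, Finset.sum_range_succ, add_assoc]

theorem shift_cells (rows : List ℕ) (I J : ℕ) :
    (cellsR rows).map (shift I J) = (cellsK rows).map (cell I J) := by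
  unfold cellsR cellsK
  rw [List.map_map]
  rfl

section

variable {N m : ℕ} {pos neg : ℕ → ℕ → Bool} {α : ℕ → Bool} {r : ℕ → ℕ}

variable (N m pos neg) in
/-- the cells of a tile, as a multiset of points -/
def T (I J : ℕ) : Multiset Pt := ((cellsK (rowsT N m pos neg I J)).map (cell I J) : List Pt)

theorem board_eq : ((board N m pos neg : List Pt) : Multiset Pt) =
    ∑ I ∈ Finset.range (N + 2), ∑ J ∈ Finset.range (m + 2), T N m pos neg I J := by
  unfold board
  rw [coe_flatMap_range]
  refine Finset.sum_congr rfl fun I _ => ?_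
  rw [coe_flatMap_range]
  refine Finset.sum_congr rfl fun J _ => ?_
  rw [shift_cells]
  rfl

variable (pos neg α r) in
/-- the cells of the tile visited by the path inside the tile -/
def core (I J : ℕ) : Multiset Pt :=
  ((path (pos I J) (neg I J) (α I) (stOf r I J)).1.map (cell I J) : List Pt) +
    ((path (pos I J) (neg I J) (α I) (stOf r I J)).2.1.map (cell I J) : List Pt) +
    (if I = r J then (((path (pos I J) (neg I J) (α I) (stOf r I J)).2.2.map (cell I J) : List Pt) :
      Multiset Pt) else 0)

theorem coe_visit (I J : ℕ) : ((visit N pos neg α r I J : List Pt) : Multiset Pt) =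
    core pos neg α r I J + (if I ≤ r J then ((rd pos neg α (I - 1) J : List Pt) : Multiset Pt) else 0) +
      (if r J ≤ I then ((ru N pos neg α (I + 1) J : List Pt) : Multiset Pt) else 0) := by
  unfold visit core
  simp only
  rcases lt_trichotomy I (r J) with h | h | h
  · rw [if_pos h, if_neg h.ne, if_pos h.le, if_neg (by omega)]
    simp only [← Multiset.coe_add]
    abel
  · rw [if_neg (by omega), if_pos h, if_pos h, if_pos h.le, if_pos h.ge]
    split_ifs <;> simp only [← Multiset.coe_add] <;> abel
  · rw [if_neg (by omega), if_neg (by omega), if_neg (by omega), if_neg (by omega), if_pos h.le]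
    simp only [← Multiset.coe_add]
    abel

theorem T_int {I J : ℕ} (hI : 1 ≤ I) (hIN : I ≤ N) (hJ : 1 ≤ J) (hJm : J ≤ m)
    (hr : I = r J → (bif α I then pos I J else neg I J) = true) :
    T N m pos neg I J =
    core pos neg α r I J + (if I < r J then ((rd pos neg α I J : List Pt) : Multiset Pt) else 0) +
      (if r J < I then ((ru N pos neg α I J : List Pt) : Multiset Pt) else 0) := by
  have hperm : (((path (pos I J) (neg I J) (α I) (stOf r I J)).1 ++
      (path (pos I J) (neg I J) (α I) (stOf r I J)).2.1 ++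
      (path (pos I J) (neg I J) (α I) (stOf r I J)).2.2).isPerm
      (cellsK (rowsI (pos I J) (neg I J)))) = true := by
    apply perm_path
    · cases stOf r I J <;> simp
    · intro h
      apply hr
      unfold stOf at h
      split_ifs at h with h1 h2
      exact h2
  rw [List.isPerm_iff] at hperm
  have h1 : T N m pos neg I J = (((path (pos I J) (neg I J) (α I) (stOf r I J)).1.map (cell I J) :
      List Pt) : Multiset Pt) +
      ((path (pos I J) (neg I J) (α I) (stOf r I J)).2.1.map (cell I J) : List Pt) +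
      ((path (pos I J) (neg I J) (α I) (stOf r I J)).2.2.map (cell I J) : List Pt) := by
    unfold T
    rw [rowsT_int hI hIN hJ hJm, ← Multiset.coe_eq_coe.2 (hperm.map (cell I J)), List.map_append,
      List.map_append, Multiset.coe_add, Multiset.coe_add]
  rw [h1]
  unfold core
  rcases lt_trichotomy I (r J) with h | h | h
  · rw [if_neg h.ne, if_pos h, if_neg (by omega)]
    have hs : stOf r I J = St.U := by unfold stOf; rw [if_pos h]
    unfold rd
    rw [if_neg (by omega), hs]
    simp
  · rw [if_pos h, if_neg (by omega), if_neg (by omega)]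
    simp
  · rw [if_neg (by omega), if_neg (by omega), if_pos h]
    have hs : stOf r I J = St.L := by unfold stOf; rw [if_neg (by omega), if_neg (by omega)]
    unfold ru
    rw [if_neg (by omega), hs]
    simp

theorem column_sum {J : ℕ} (hJ : 1 ≤ J) (hJm : J ≤ m) (h1 : 1 ≤ r J) (hN : r J ≤ N)
    (hr : ∀ I, I = r J → (bif α I then pos I J else neg I J) = true) :
    ∑ i ∈ Finset.range N, ((visit N pos neg α r (i + 1) J : List Pt) : Multiset Pt) =
      (rd pos neg α 0 J : List Pt) + ∑ i ∈ Finset.range N, T N m pos neg (i + 1) J +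
        (ru N pos neg α (N + 1) J : List Pt) := by
  have e1 : ∀ i ∈ Finset.range N, ((visit N pos neg α r (i + 1) J : List Pt) : Multiset Pt) =
      core pos neg α r (i + 1) J +
      (if i < r J then ((rd pos neg α i J : List Pt) : Multiset Pt) else 0) +
      (if r J < i + 2 then ((ru N pos neg α (i + 2) J : List Pt) : Multiset Pt) else 0) := by
    intro i hi
    rw [coe_visit]
    have a1 : (i + 1 ≤ r J) = (i < r J) := by simp [Nat.succ_le_iff]
    have a2 : (r J ≤ i + 1) = (r J < i + 2) := by simp only [eq_iff_iff]; omega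
    simp only [a1, a2, Nat.add_sub_cancel]
  have e2 : ∀ i ∈ Finset.range N, T N m pos neg (i + 1) J =
      core pos neg α r (i + 1) J +
      (if i + 1 < r J then ((rd pos neg α (i + 1) J : List Pt) : Multiset Pt) else 0) +
      (if r J < i + 1 then ((ru N pos neg α (i + 1) J : List Pt) : Multiset Pt) else 0) := by
    intro i hi
    rw [Finset.mem_range] at hi
    exact T_int (by omega) (by omega) hJ hJm (hr _)
  rw [Finset.sum_congr rfl e1, Finset.sum_congr rfl e2]
  simp only [Finset.sum_add_distrib]
  have f1 : ∑ i ∈ Finset.range N, (if i < r J then ((rd pos neg α i J : List Pt) : Multiset Pt)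
      else 0) = (rd pos neg α 0 J : List Pt) + ∑ i ∈ Finset.range N,
      (if i + 1 < r J then ((rd pos neg α (i + 1) J : List Pt) : Multiset Pt) else 0) := by
    have := Finset.sum_range_succ (fun i => if i < r J then
      ((rd pos neg α i J : List Pt) : Multiset Pt) else 0) N
    have h2 := Finset.sum_range_succ' (fun i => if i < r J then
      ((rd pos neg α i J : List Pt) : Multiset Pt) else 0) N
    rw [h2] at this
    rw [if_neg (show ¬ N < r J by omega), if_pos (show 0 < r J by omega), add_zero] at this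
    rw [← this, add_comm]
  have f2 : (∑ i ∈ Finset.range N,
      (if r J < i + 1 then ((ru N pos neg α (i + 1) J : List Pt) : Multiset Pt) else 0)) +
      (ru N pos neg α (N + 1) J : List Pt) = ∑ i ∈ Finset.range N,
      (if r J < i + 2 then ((ru N pos neg α (i + 2) J : List Pt) : Multiset Pt) else 0) := by
    have := Finset.sum_range_succ (fun i => if r J < i + 1 then
      ((ru N pos neg α (i + 1) J : List Pt) : Multiset Pt) else 0) N
    have h2 := Finset.sum_range_succ' (fun i => if r J < i + 1 then
      ((ru N pos neg α (i + 1) J : List Pt) : Multiset Pt) else 0) N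
    rw [h2] at this
    rw [if_pos (show r J < N + 1 by omega), if_neg (show ¬ r J < 0 + 1 by omega), add_zero] at this
    rw [← this]
  rw [f1, ← f2]
  abel

theorem T_zero_zero : T N m pos neg 0 0 = {cell 0 0 75} := by
  unfold T rowsT
  rw [if_pos rfl, if_pos rfl]
  have : cellsK [0, 0, 0, 0, 0, 0, 0, 0, 0, 0, 0, 0, 8] = [75] := by decide +kernel
  rw [this]
  rfl

theorem T_zero {J : ℕ} (hJ : 1 ≤ J) (hJm : J ≤ m) :
    T N m pos neg 0 J = (rd pos neg α 0 J : List Pt) := by
  unfold T rowsT rd
  rw [if_pos rfl, if_neg (by omega), if_pos hJm, if_pos rfl]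
  have : cellsK [0, 0, 0, 0, 0, 0, 0, 0, 0, 0, 0, 0, 30] = [73, 74, 75, 76] := by decide +kernel
  rw [this]

theorem T_zero_last : T N m pos neg 0 (m + 1) = 0 := by
  unfold T rowsT
  rw [if_pos rfl, if_neg (by omega), if_neg (by omega)]
  have : cellsK [] = [] := by decide +kernel
  rw [this]
  rfl

theorem T_end_zero (hN : 1 ≤ N) : T N m pos neg (N + 1) 0 = {cell (N + 1) 0 3} := by
  unfold T rowsT
  rw [if_neg (by omega), if_neg (by omega), if_pos rfl, if_pos rfl]
  have : cellsK [8] = [3] := by decide +kernel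
  rw [this]
  rfl

theorem T_end {J : ℕ} (hJ : 1 ≤ J) (hJm : J ≤ m) :
    T N m pos neg (N + 1) J = (ru N pos neg α (N + 1) J : List Pt) := by
  unfold T rowsT ru
  rw [if_neg (by omega), if_neg (by omega), if_pos rfl, if_neg (by omega), if_pos hJm, if_pos rfl]
  have : cellsK [30] = [1, 2, 3, 4] := by decide +kernel
  rw [this]

theorem T_end_last : T N m pos neg (N + 1) (m + 1) = 0 := by
  unfold T rowsT
  rw [if_neg (by omega), if_neg (by omega), if_pos rfl, if_neg (by omega), if_neg (by omega)]
  have : cellsK [] = [] := by decide +kernel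
  rw [this]
  rfl

theorem T_left {I : ℕ} (hI : 1 ≤ I) (hIN : I ≤ N) : T N m pos neg I 0 =
    (((pathL (I % 2 == 1) (α I)).map (cell I 0) : List Pt) : Multiset Pt) := by
  unfold T
  rw [rowsT_left hI hIN]
  have := okSeg_L (I % 2 == 1) (α I)
  rw [Bool.and_eq_true, List.isPerm_iff] at this
  exact (Multiset.coe_eq_coe.2 (this.2.map _)).symm

theorem T_right {I : ℕ} (hI : 1 ≤ I) (hIN : I ≤ N) : T N m pos neg I (m + 1) =
    (((pathR (I % 2 == 0) (α I)).map (cell I (m + 1)) : List Pt) : Multiset Pt) := by
  unfold T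
  rw [rowsT_right hI hIN]
  have := okSeg_R (I % 2 == 0) (α I)
  rw [Bool.and_eq_true, List.isPerm_iff] at this
  exact (Multiset.coe_eq_coe.2 (this.2.map _)).symm

theorem coe_rowP (I : ℕ) : ((rowP N m pos neg α r I : List Pt) : Multiset Pt) =
    ((pathL (I % 2 == 1) (α I)).map (cell I 0) : List Pt) +
    ∑ j ∈ Finset.range m, ((visit N pos neg α r I (j + 1) : List Pt) : Multiset Pt) +
    ((pathR (I % 2 == 0) (α I)).map (cell I (m + 1)) : List Pt) := by
  unfold rowP rowTo
  rw [← Multiset.coe_add, ← Multiset.coe_add, coe_flatMap_range]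

theorem coe_pathTo (n : ℕ) : ((pathTo N m pos neg α r n : List Pt) : Multiset Pt) =
    {cell 0 0 75} + ∑ i ∈ Finset.range (2 * n), ((rowP N m pos neg α r (i + 1) : List Pt) :
      Multiset Pt) := by
  unfold pathTo
  rw [← Multiset.cons_coe, coe_flatMap_range, ← Multiset.singleton_add]
  congr 1
  rw [← sum_pairs (fun i => ((rowP N m pos neg α r (i + 1) : List Pt) : Multiset Pt))]
  refine Finset.sum_congr rfl fun i _ => ?_
  rw [← Multiset.coe_add, Multiset.coe_reverse]

theorem sum_mid {M : Type*} [AddCommMonoid M] (f : ℕ → M) (n : ℕ) :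
    ∑ j ∈ Finset.range (n + 2), f j = f 0 + ∑ j ∈ Finset.range n, f (j + 1) + f (n + 1) := by
  rw [Finset.sum_range_succ, Finset.sum_range_succ']
  rw [add_comm (∑ j ∈ Finset.range n, f (j + 1)) (f 0)]

theorem path_perm (hN : N % 2 = 0) (hN2 : 2 ≤ N)
    (h1 : ∀ J, 1 ≤ J → J ≤ m → 1 ≤ r J ∧ r J ≤ N)
    (hr : ∀ I J, 1 ≤ J → J ≤ m → I = r J → (bif α I then pos I J else neg I J) = true) :
    (pathTo N m pos neg α r (N / 2) ++ [cell (N + 1) 0 3]).Perm (board N m pos neg) := by
  rw [← Multiset.coe_eq_coe, ← Multiset.coe_add, coe_pathTo, board_eq]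
  have e : 2 * (N / 2) = N := by omega
  rw [e, sum_mid]
  have r0 : ∑ J ∈ Finset.range (m + 2), T N m pos neg 0 J = {cell 0 0 75} +
      ∑ j ∈ Finset.range m, ((rd pos neg α 0 (j + 1) : List Pt) : Multiset Pt) := by
    rw [sum_mid, T_zero_zero, T_zero_last, add_zero]
    congr 1
    refine Finset.sum_congr rfl fun j hj => ?_
    rw [Finset.mem_range] at hj
    exact T_zero (by omega) (by omega)
  have r1 : ∑ J ∈ Finset.range (m + 2), T N m pos neg (N + 1) J = {cell (N + 1) 0 3} +
      ∑ j ∈ Finset.range m, ((ru N pos neg α (N + 1) (j + 1) : List Pt) : Multiset Pt) := by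
    rw [sum_mid, T_end_zero (by omega), T_end_last, add_zero]
    congr 1
    refine Finset.sum_congr rfl fun j hj => ?_
    rw [Finset.mem_range] at hj
    exact T_end (by omega) (by omega)
  have r2 : ∑ i ∈ Finset.range N, ∑ J ∈ Finset.range (m + 2), T N m pos neg (i + 1) J =
      ∑ i ∈ Finset.range N, ((((pathL ((i + 1) % 2 == 1) (α (i + 1))).map (cell (i + 1) 0) :
        List Pt) : Multiset Pt) +
        (((pathR ((i + 1) % 2 == 0) (α (i + 1))).map (cell (i + 1) (m + 1)) : List Pt) :
          Multiset Pt)) +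
      ∑ j ∈ Finset.range m, ∑ i ∈ Finset.range N, T N m pos neg (i + 1) (j + 1) := by
    rw [Finset.sum_comm (s := Finset.range m), ← Finset.sum_add_distrib]
    refine Finset.sum_congr rfl fun i hi => ?_
    rw [Finset.mem_range] at hi
    rw [sum_mid, T_left (α := α) (by omega) (by omega), T_right (α := α) (by omega) (by omega)]
    abel
  have r3 : ∑ i ∈ Finset.range N, ((rowP N m pos neg α r (i + 1) : List Pt) : Multiset Pt) =
      ∑ i ∈ Finset.range N, ((((pathL ((i + 1) % 2 == 1) (α (i + 1))).map (cell (i + 1) 0) :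
        List Pt) : Multiset Pt) +
        (((pathR ((i + 1) % 2 == 0) (α (i + 1))).map (cell (i + 1) (m + 1)) : List Pt) :
          Multiset Pt)) +
      ∑ j ∈ Finset.range m, ∑ i ∈ Finset.range N,
        ((visit N pos neg α r (i + 1) (j + 1) : List Pt) : Multiset Pt) := by
    rw [Finset.sum_comm (s := Finset.range m), ← Finset.sum_add_distrib]
    refine Finset.sum_congr rfl fun i hi => ?_
    rw [coe_rowP]
    abel
  have r4 : ∑ j ∈ Finset.range m, ∑ i ∈ Finset.range N,
        ((visit N pos neg α r (i + 1) (j + 1) : List Pt) : Multiset Pt) =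
      ∑ j ∈ Finset.range m, ((rd pos neg α 0 (j + 1) : List Pt) : Multiset Pt) +
      ∑ j ∈ Finset.range m, ∑ i ∈ Finset.range N, T N m pos neg (i + 1) (j + 1) +
      ∑ j ∈ Finset.range m, ((ru N pos neg α (N + 1) (j + 1) : List Pt) : Multiset Pt) := by
    rw [← Finset.sum_add_distrib, ← Finset.sum_add_distrib]
    refine Finset.sum_congr rfl fun j hj => ?_
    rw [Finset.mem_range] at hj
    exact column_sum (by omega) (by omega) (h1 (j + 1) (by omega) (by omega)).1
      (h1 (j + 1) (by omega) (by omega)).2 (fun I => hr I (j + 1) (by omega) (by omega))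
  rw [r0, r1, r2, r3, r4]
  have : (([cell (N + 1) 0 3] : List Pt) : Multiset Pt) = {cell (N + 1) 0 3} := rfl
  rw [this]
  abel

/-- **Completeness** -/
theorem board_complete (hN : N % 2 = 0) (hN2 : 2 ≤ N) (α : ℕ → Bool)
    (h : ∀ J, 1 ≤ J → J ≤ m → ∃ I, 1 ≤ I ∧ I ≤ N ∧
      (bif α I then pos I J else neg I J) = true) :
    GridHamPath (board N m pos neg) := by
  classical
  choose! r h1 h2 h3 using h
  have hr : ∀ I J, 1 ≤ J → J ≤ m → I = r J → (bif α I then pos I J else neg I J) = true := by
    rintro I J hJ hJm rfl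
    exact h3 J hJ hJm
  have hperm := path_perm (α := α) (r := r) hN hN2 (fun J hJ hJm => ⟨h1 J hJ hJm, h2 J hJ hJm⟩) hr
  have hseg := pathTo_seg (N := N) (m := m) (α := α) (r := r) hr (N / 2)
  have hlast : Seg (cell (N + 1) 0 3) [cell (N + 1) 0 3] (cell (N + 1) 0 3) :=
    ⟨rfl, rfl, by simp⟩
  have hfull := hseg.append (c := cell (N + 1) 0 3) (l' := [cell (N + 1) 0 3])
    (Or.inl ⟨rfl, Or.inl (by unfold cell; simp only; omega)⟩) hlast
  refine ⟨?_, nodup_board, _, hperm, hfull.2.2⟩
  rw [← hperm.length_eq]
  have : (pathTo N m pos neg α r (N / 2)).length ≠ 0 := by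
    intro h0
    rw [List.length_eq_zero_iff] at h0
    rw [h0] at hseg
    exact absurd hseg.1 (by simp)
  rw [List.length_append, List.length_singleton]
  omega

end

end Pool.Agent.Lib.GridHam
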