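import Mathlib
import Pool.Agent.Lib.GridHam.Sound3

/-!
Soundness of the reduction: the theorem.
-/

namespace Pool.Agent.Lib.GridHam

open Pool.Agent.Lib.MP_17cbde_lc (GridAdj GridHamPath)

variable {N m : ℕ} {pos neg : ℕ → ℕ → Bool} {P : List Pt}

theorem Setup.left (h : Setup N m pos neg P) {I : ℕ} (hI : 1 ≤ I) (hIN : I ≤ N) :
    hb P 5 (13 * I + 8) = !(hb P 5 (13 * I + 4)) := by
  have hrows := rowsT_left (m := m) (pos := pos) (neg := neg) hI hIN
  have hleaf := h.tile_dfs hI hIN _ hrows (fun _ => rowsL_zero _) (pmL (I % 2 == 1))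
    (crmL (I % 2 == 1)) (cdmL (I % 2 == 1)) 0 (bif (I % 2 == 1) then 8 else 0) leafL
    (pmL_spec _) ?_ ?_ ?_ ?_ ?_ (checkL_true _)
  · unfold leafL at hleaf
    rw [testBit_maskOf, testBit_maskOf] at hleaf
    simpa [rtT] using hleaf
  · intro k hk hc
    have := crmL_spec (I % 2 == 1) k hk
    rw [hc, Bool.false_or] at this
    exact h.crm_aux hI hIN (Nat.zero_le _) _ hrows hk this
  · intro k hk hc
    have := cdmL_spec (I % 2 == 1) k hk
    rw [hc, Bool.false_or] at this
    exact h.cdm_aux _ hrows hk this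
  · intro r hr
    simp
  · intro j hj
    unfold dnT
    have e1 : 6 * 0 + j % 6 = j := by omega
    have e2 : 13 * I + j / 6 - 1 = 13 * I - 1 := by omega
    rw [e1, e2]
    have hocc : ∀ d < 6, occ N m pos neg d (13 * I) = bit (rowsL (I % 2 == 1)) d 0 := by
      intro d hd
      rw [occ_eq I 0 d 0 hd (by norm_num) (x := d) (y := 13 * I) (by ring) rfl, hrows]
    have habs : bit (rowsL (I % 2 == 1)) j 0 = false → vb P j (13 * I - 1) = false := by
      intro hb
      by_contra hcon
      simp only [Bool.not_eq_false] at hcon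
      have h10 := (h.vb_occ hcon).2
      have e : 13 * I - 1 + 1 = 13 * I := by omega
      rw [e, hocc j hj, hb] at h10
      exact absurd h10 (by simp)
    obtain ⟨h1, h2⟩ := rowsL_first j hj
    cases hu : (I % 2 == 1) with
    | false =>
      rw [hu] at habs
      rw [habs h2]
      simp
    | true =>
      rw [hu] at habs hocc
      by_cases h3 : j = 3
      · subst h3
        have := (h.forced (x := 3) (y := 13 * I) ?_ ?_ ?_ (by omega) (by omega) (by omega)).1
        · rw [this]; decide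
        · rw [hocc 3 (by norm_num)]; decide
        · exact hocc 2 (by norm_num)
        · exact hocc 4 (by norm_num)
      · rw [habs (by rw [h1]; simpa using h3)]
        interval_cases j <;> first | decide | omega
  · cases (I % 2 == 1) <;> simp

theorem Setup.lanes (h : Setup N m pos neg P) {I : ℕ} (hI : 1 ≤ I) (hIN : I ≤ N) :
    ∀ J ≤ m, hb P (6 * J + 5) (13 * I + 4) = hb P 5 (13 * I + 4) ∧
      hb P (6 * J + 5) (13 * I + 8) = !(hb P 5 (13 * I + 4)) := by
  intro J
  induction J with
  | zero => exact fun _ => ⟨rfl, h.left hI hIN⟩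
  | succ J ih =>
    intro hJ
    obtain ⟨h4, h8⟩ := ih (by omega)
    have e : 6 * (J + 1) - 1 = 6 * J + 5 := by omega
    exact (h.tile_concl hI hIN (by omega) hJ (hb P 5 (13 * I + 4)) (by rw [e]; exact h4)
      (by rw [e]; exact h8)).1

theorem Setup.glue (h : Setup N m pos neg P) {I J : ℕ} (h1 : ClosedDown P I J)
    (h2 : ClosedUp P (I + 1) J) (hI : I ≤ N) (hJ : 1 ≤ J) (hm : J ≤ m) : False := by
  obtain ⟨Z1, ha, hb', hc, hd⟩ := h1
  obtain ⟨Z2, ha2, hb2, hc2, hd2⟩ := h2
  have hmem : (6 * J + 1, 13 * I + 12) ∈ P := by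
    rcases Nat.eq_zero_or_pos I with rfl | hI0
    · rw [h.mem, occ_eq 0 J 1 12 (by norm_num) (by norm_num) rfl rfl]
      unfold rowsT
      rw [if_pos rfl, if_neg (by omega), if_pos hm]
      decide
    · rw [h.mem, occ_eq I J 1 12 (by norm_num) (by norm_num) rfl rfl, rowsT_int hI0 hI hJ hm,
        rowsI_last _ _ 1 (by norm_num)]
      rfl
  have hs : (3, 12) ∈ P := by
    rw [h.mem, occ_eq 0 0 3 12 (by norm_num) (by norm_num) rfl rfl]
    simp [rowsT, bit]
    decide
  have e1 : 13 * (I + 1) = 13 * I + 13 := by ring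
  have e2 : 13 * (I + 1) - 1 = 13 * I + 12 := by omega
  rw [e1] at hb2 hc2
  rw [e2] at hd2
  have := closed_all (P := P) (Z := Z1 ∪ Z2) ?_ (Or.inl hb') hmem (3, 12) hs
  · rcases this with h3 | h3
    · exact absurd (ha _ h3) (by norm_num)
    · exact absurd (ha2 _ h3) (by norm_num)
  · rintro a (ha' | ha') b hu
    · rcases hd a ha' b hu with h3 | rfl | rfl
      · exact Or.inl h3
      · exact Or.inr hb2
      · exact Or.inr hc2
    · rcases hd2 a ha' b hu with h3 | rfl | rfl
      · exact Or.inr h3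
      · exact Or.inl hb'
      · exact Or.inl hc

theorem Setup.topCap (h : Setup N m pos neg P) {J : ℕ} (hJ : 1 ≤ J) (hm : J ≤ m) :
    ClosedDown P 0 J := by
  have hN := h.two_le
  refine ⟨{a | ∃ c, 1 ≤ c ∧ c ≤ 4 ∧ a = (6 * J + c, 12)}, ?_, ⟨1, by norm_num, by norm_num, by simp⟩,
    ⟨4, by norm_num, by norm_num, by simp⟩, ?_⟩
  · rintro a ⟨c, -, -, rfl⟩
    simp only
    omega
  · rintro a ⟨c, hc1, hc4, rfl⟩ ⟨x, y⟩ hu
    have hadj := used_adj h.chain hu
    have hb := (used_mem hu).2
    rw [h.mem] at hb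
    have hcase : (x = 6 * J + (c + 1) ∧ y = 12) ∨ (x = 6 * J + (c - 1) ∧ y = 12) ∨
        (x = 6 * J + c ∧ y = 13 * 1 + 0) ∨ (x = 6 * J + c ∧ y = 11) := by
      unfold GridAdj at hadj
      simp only at hadj
      omega
    have hrow : rowsT N m pos neg 0 J = [0, 0, 0, 0, 0, 0, 0, 0, 0, 0, 0, 0, 30] := by
      unfold rowsT
      rw [if_pos rfl, if_neg (by omega), if_pos hm]
    rcases hcase with ⟨rfl, rfl⟩ | ⟨rfl, rfl⟩ | ⟨rfl, rfl⟩ | ⟨rfl, rfl⟩
    · left
      refine ⟨c + 1, by omega, ?_, rfl⟩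
      by_contra hcon
      have : c = 4 := by omega
      subst this
      rw [occ_eq 0 J 5 12 (by norm_num) (by norm_num) rfl rfl, hrow] at hb
      exact absurd hb (by decide)
    · left
      refine ⟨c - 1, ?_, by omega, rfl⟩
      by_contra hcon
      have : c = 1 := by omega
      subst this
      rw [occ_eq 0 J 0 12 (by norm_num) (by norm_num) rfl rfl, hrow] at hb
      exact absurd hb (by decide)
    · right
      rw [occ_eq 1 J c 0 (by omega) (by norm_num) rfl rfl, rowsT_int le_rfl (by omega) hJ hm,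
        rowsI_first _ _ c (by omega)] at hb
      simp only [decide_eq_true_eq] at hb
      rcases hb with rfl | rfl
      · exact Or.inl rfl
      · exact Or.inr rfl
    · rw [occ_eq 0 J c 11 (by omega) (by norm_num) rfl rfl, hrow] at hb
      simp [bit] at hb

theorem Setup.botCap (h : Setup N m pos neg P) {J : ℕ} (hJ : 1 ≤ J) (hm : J ≤ m) :
    ClosedUp P (N + 1) J := by
  have hN := h.two_le
  refine ⟨{a | ∃ c, 1 ≤ c ∧ c ≤ 4 ∧ a = (6 * J + c, 13 * (N + 1))}, ?_,
    ⟨1, by norm_num, by norm_num, rfl⟩, ⟨4, by norm_num, by norm_num, rfl⟩, ?_⟩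
  · rintro a ⟨c, -, -, rfl⟩
    simp only
    omega
  · rintro a ⟨c, hc1, hc4, rfl⟩ ⟨x, y⟩ hu
    have hadj := used_adj h.chain hu
    have hb := (used_mem hu).2
    rw [h.mem] at hb
    have hcase : (x = 6 * J + (c + 1) ∧ y = 13 * (N + 1)) ∨
        (x = 6 * J + (c - 1) ∧ y = 13 * (N + 1)) ∨
        (x = 6 * J + c ∧ y = 13 * (N + 1) + 1) ∨ (x = 6 * J + c ∧ y = 13 * N + 12) := by
      unfold GridAdj at hadj
      simp only at hadj
      omega
    have hrow : rowsT N m pos neg (N + 1) J = [30] := by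
      unfold rowsT
      rw [if_neg (by omega), if_neg (by omega), if_pos rfl, if_neg (by omega), if_pos hm]
    rcases hcase with ⟨rfl, rfl⟩ | ⟨rfl, rfl⟩ | ⟨rfl, rfl⟩ | ⟨rfl, rfl⟩
    · left
      refine ⟨c + 1, by omega, ?_, rfl⟩
      by_contra hcon
      have : c = 4 := by omega
      subst this
      rw [occ_eq (N + 1) J 5 0 (by norm_num) (by norm_num) (y := 13 * (N + 1)) rfl rfl, hrow] at hb
      exact absurd hb (by decide)
    · left
      refine ⟨c - 1, ?_, by omega, rfl⟩
      by_contra hcon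
      have : c = 1 := by omega
      subst this
      rw [occ_eq (N + 1) J 0 0 (by norm_num) (by norm_num) (y := 13 * (N + 1)) rfl rfl, hrow] at hb
      exact absurd hb (by decide)
    · rw [occ_eq (N + 1) J c 1 (by omega) (by norm_num) rfl rfl, hrow] at hb
      simp [bit] at hb
    · right
      rw [occ_eq N J c 12 (by omega) (by norm_num) rfl rfl, rowsT_int (by omega) le_rfl hJ hm,
        rowsI_last _ _ c (by omega)] at hb
      simp only [decide_eq_true_eq] at hb
      have e : 13 * (N + 1) - 1 = 13 * N + 12 := by omega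
      rw [e]
      rcases hb with rfl | rfl
      · exact Or.inl rfl
      · exact Or.inr rfl

theorem Setup.column (h : Setup N m pos neg P) {J : ℕ} (hJ : 1 ≤ J) (hm : J ≤ m) :
    ∃ I, 1 ≤ I ∧ I ≤ N ∧ (bif hb P 5 (13 * I + 4) then pos I J else neg I J) = true := by
  by_contra hcon
  push Not at hcon
  have hdown : ∀ I ≤ N, ClosedDown P I J := by
    intro I
    induction I with
    | zero => exact fun _ => h.topCap hJ hm
    | succ I ih =>
      intro hI
      have h1 := ih (by omega)
      obtain ⟨J, rfl⟩ : ∃ J', J = J' + 1 := ⟨J - 1, by omega⟩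
      obtain ⟨h4, h8⟩ := h.lanes (I := I + 1) (by omega) hI J (by omega)
      have e : 6 * (J + 1) - 1 = 6 * J + 5 := by omega
      have h2 := (h.tile_concl (I := I + 1) (J := J + 1) (by omega) hI (by omega) hm
        (hb P 5 (13 * (I + 1) + 4)) (by rw [e]; exact h4) (by rw [e]; exact h8)).2
      rcases h2 with h2 | h2 | h2
      · exact (hcon (I + 1) (by omega) hI h2).elim
      · exact (h.glue h1 h2 (by omega) hJ hm).elim
      · exact h2
  exact h.glue (hdown N le_rfl) (h.botCap hJ hm) le_rfl hJ hm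

/-- **Soundness**: a Hamiltonian path of the board gives, for each column, a row whose value (read off
from the path) agrees with a sign at the crossing. -/
theorem board_sound {N m : ℕ} {pos neg : ℕ → ℕ → Bool} (hN : N % 2 = 0) (hN2 : 2 ≤ N)
    (h : GridHamPath (board N m pos neg)) :
    ∃ α : ℕ → Bool, ∀ J, 1 ≤ J → J ≤ m →
      ∃ I, 1 ≤ I ∧ I ≤ N ∧ (bif α I then pos I J else neg I J) = true := by
  obtain ⟨-, -, P, hP, hch⟩ := h
  have hs : Setup N m pos neg P := ⟨hP, hch, hN, hN2⟩
  exact ⟨fun I => hb P 5 (13 * I + 4), fun J hJ hm => hs.column hJ hm⟩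

end Pool.Agent.Lib.GridHam
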