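import Pool.Agent.Lib.PolyTime.Mul
import Pool.Agent.Lib.CookLevin.Main
import Pool.Agent.Lib.GridHam.Sound4
import Pool.Agent.Lib.GridHam.Complete2

/-!
From a formula in conjunctive normal form to a grid graph, in polynomial time.
-/

namespace Pool.Agent.Lib.GridHam

open N68a2faeb N487b59b3 Pool.Agent.Lib.PolyTime Pool.Agent.Lib.MP_17cbde_lc

/-- a formula in conjunctive normal form: clauses are lists of literals -/
abbrev CNF := List (List (ℕ × Bool))

/-- the variables of a formula -/
def vars (φ : CNF) : List ℕ := uniq (φ.flatten.map Prod.fst)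

/-- two rows for each variable -/
def pairRows (L : List ℕ) : List (ℕ × Bool) :=
  (L.flatMap fun v => [(v, true), (0, false)]) ++ [(0, false), (0, false)]

/-- does the variable of row `I` occur with sign `b` in the clause of column `J`? -/
def lit (φ : CNF) (b : Bool) (I J : ℕ) : Bool :=
  ((pairRows (vars φ)).getD (I - 1) (0, false)).2 &&
    decide ((((pairRows (vars φ)).getD (I - 1) (0, false)).1, b) ∈ φ.getD (J - 1) [])

/-- the grid graph of a formula -/
def gridOf (φ : CNF) : List (ℕ × ℕ) :=
  board (pairRows (vars φ)).length φ.length (lit φ true) (lit φ false)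

theorem length_pairRows (L : List ℕ) : (pairRows L).length = 2 * L.length + 2 := by
  unfold pairRows
  rw [List.length_append]
  have : (L.flatMap fun v => [(v, true), (0, false)]).length = 2 * L.length := by
    induction L with
    | nil => rfl
    | cons a L ih =>
      rw [List.flatMap_cons, List.length_append, ih]
      simp only [List.length_cons, List.length_nil]
      ring
  rw [this]
  simp

theorem getD_pairRows_even (L : List ℕ) (k : ℕ) (hk : k < L.length) :
    (pairRows L).getD (2 * k) (0, false) = (L[k], true) := by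
  induction L generalizing k with
  | nil => simp at hk
  | cons a L ih =>
    cases k with
    | zero => rfl
    | succ k =>
      have h1 := ih k (by simpa using hk)
      have e : pairRows (a :: L) = (a, true) :: (0, false) :: pairRows L := rfl
      rw [e]
      have e2 : 2 * (k + 1) = 2 * k + 1 + 1 := by ring
      rw [e2, List.getD_cons_succ, List.getD_cons_succ, h1]
      rfl

theorem getD_pairRows_snd (L : List ℕ) (i : ℕ)
    (h : ((pairRows L).getD i (0, false)).2 = true) :
    ∃ k, ∃ hk : k < L.length, i = 2 * k ∧ ((pairRows L).getD i (0, false)).1 = L[k] := by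
  induction L generalizing i with
  | nil =>
    exfalso
    match i, h with
    | 0, h => exact absurd h (by decide)
    | 1, h => exact absurd h (by decide)
    | (n + 2), h =>
      have e : (pairRows []).getD (n + 2) (0, false) = (0, false) := by
        simp [pairRows]
      rw [e] at h
      exact absurd h (by simp)
  | cons a L ih =>
    have e : pairRows (a :: L) = (a, true) :: (0, false) :: pairRows L := rfl
    rw [e] at h ⊢
    match i, h with
    | 0, h => exact ⟨0, by simp, rfl, rfl⟩
    | 1, h => exact absurd h (by simp)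
    | (n + 2), h =>
      rw [List.getD_cons_succ, List.getD_cons_succ] at h ⊢
      obtain ⟨k, hk, h1, h2⟩ := ih n h
      exact ⟨k + 1, by simpa using hk, by omega, by rw [h2]; rfl⟩

open CookLevin in
theorem sat_iff_grid (φ : CNF) : (∃ β : ℕ → Bool, Sat β φ) ↔ GridHamPath (gridOf φ) := by
  have hlen := length_pairRows (vars φ)
  constructor
  · rintro ⟨β, hβ⟩
    refine board_complete (by omega) (by omega)
      (fun I => β ((pairRows (vars φ)).getD (I - 1) (0, false)).1) ?_
    intro J hJ hJm
    have hc : φ.getD (J - 1) [] ∈ φ := by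
      rw [List.getD_eq_getElem _ _ (by omega)]
      exact List.getElem_mem _
    obtain ⟨l, hl, hl2⟩ := hβ _ hc
    have hv : l.1 ∈ vars φ := by
      unfold vars
      rw [mem_uniq, List.mem_map]
      exact ⟨l, List.mem_flatten.mpr ⟨_, hc, hl⟩, rfl⟩
    have hk := List.idxOf_lt_length_of_mem hv
    have hg := getD_pairRows_even (vars φ) _ hk
    rw [List.getElem_idxOf] at hg
    refine ⟨2 * (vars φ).idxOf l.1 + 1, by omega, by omega, ?_⟩
    have e : 2 * (vars φ).idxOf l.1 + 1 - 1 = 2 * (vars φ).idxOf l.1 := by omega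
    simp only [lit, e, hg, hl2, Bool.true_and]
    have hl' : (l.1, l.2) = l := rfl
    cases h2 : l.2
    · rw [h2] at hl'
      simp only [cond_false, hl', decide_eq_true_eq]
      exact hl
    · rw [h2] at hl'
      simp only [cond_true, hl', decide_eq_true_eq]
      exact hl
  · intro h
    obtain ⟨α, hα⟩ := board_sound (by omega) (by omega) h
    refine ⟨fun v => α (2 * (vars φ).idxOf v + 1), ?_⟩
    intro c hc
    obtain ⟨j, hj, hjc⟩ := List.getElem_of_mem hc
    obtain ⟨I, hI, hIN, hI2⟩ := hα (j + 1) (by omega) (by omega)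
    have hgc : φ.getD (j + 1 - 1) [] = c := by
      rw [Nat.add_sub_cancel, List.getD_eq_getElem _ _ hj, hjc]
    have key : ∀ b : Bool, lit φ b I (j + 1) = true →
        ∃ v, (v, b) ∈ c ∧ α (2 * (vars φ).idxOf v + 1) = α I := by
      intro b hb
      unfold lit at hb
      rw [Bool.and_eq_true, decide_eq_true_eq, hgc] at hb
      obtain ⟨k, hk, h1, h2⟩ := getD_pairRows_snd _ _ hb.1
      refine ⟨_, hb.2, ?_⟩
      rw [h2]
      have e : (vars φ).idxOf (vars φ)[k] = k := List.Nodup.idxOf_getElem (nodup_uniq _) k hk
      rw [e]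
      congr 1
      omega
    cases hv : α I
    · rw [hv, cond_false] at hI2
      obtain ⟨v, h1, h2⟩ := key false hI2
      exact ⟨(v, false), h1, by rw [← hv, ← h2]⟩
    · rw [hv, cond_true] at hI2
      obtain ⟨v, h1, h2⟩ := key true hI2
      exact ⟨(v, true), h1, by rw [← hv, ← h2]⟩

/-! ### Polynomial time -/

/-- the cells of a tile by a case distinction with constant values -/
def tileCells (N m I J : ℕ) (p n : Bool) : List (ℕ × ℕ) :=
  if I = 0 then
    if J = 0 then cellsR [0, 0, 0, 0, 0, 0, 0, 0, 0, 0, 0, 0, 8]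
    else if J ≤ m then cellsR [0, 0, 0, 0, 0, 0, 0, 0, 0, 0, 0, 0, 30] else cellsR []
  else if I ≤ N then
    if J = 0 then (if I % 2 = 1 then cellsR (rowsL true) else cellsR (rowsL false))
    else if J ≤ m then
      (cond p
        (cond n (cellsR (rowsI true true)) (cellsR (rowsI true false)))
        (cond n (cellsR (rowsI false true)) (cellsR (rowsI false false))))
    else if J = m + 1 then (if I % 2 = 1 then cellsR (rowsR false) else cellsR (rowsR true))
    else cellsR []
  else if I = N + 1 then
    if J = 0 then cellsR [8] else if J ≤ m then cellsR [30] else cellsR []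
  else cellsR []

theorem cellsR_rowsT (N m : ℕ) (pos neg : ℕ → ℕ → Bool) (I J : ℕ) :
    cellsR (rowsT N m pos neg I J) = tileCells N m I J (pos I J) (neg I J) := by
  unfold rowsT tileCells
  split_ifs with h1 h2 h3 h4 h5 h6 h7 h8 h9 h10
  all_goals first
    | rfl
    | (cases pos I J <;> cases neg I J <;> rfl)
    | (congr 2; simp; omega)

variable {α : Type} [N487b59b3 α]

theorem pt_vars : IsPolyTime vars := by
  unfold vars
  fun_prop

theorem pt_pairRows {L : α → List ℕ} (hL : IsPolyTime L) :
    IsPolyTime (fun a => pairRows (L a)) := by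
  unfold pairRows
  fun_prop

theorem pt_lit {φ : α → CNF} {I J : α → ℕ} (b : Bool) (hφ : IsPolyTime φ) (hI : IsPolyTime I)
    (hJ : IsPolyTime J) : IsPolyTime (fun a => lit (φ a) b (I a) (J a)) := by
  unfold lit
  have h1 : IsPolyTime (fun a => (pairRows (vars (φ a))).getD (I a - 1) (0, false)) :=
    pt_getD _ (pt_pairRows (pt_comp pt_vars hφ)) (by fun_prop)
  have h2 : IsPolyTime (fun a => (φ a).getD (J a - 1) []) := pt_getD _ hφ (by fun_prop)
  refine pt_and (pt_snd h1) (pt_congr (pt_mem (pt_pair (pt_fst h1) (pt_const b)) h2)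
    (fun a => ?_))
  rw [decide_eq_decide]

theorem pt_tileCells {N m I J : α → ℕ} {p n : α → Bool} (hN : IsPolyTime N)
    (hm : IsPolyTime m) (hI : IsPolyTime I) (hJ : IsPolyTime J)
    (hp : IsPolyTime p) (hn : IsPolyTime n) :
    IsPolyTime (fun a => tileCells (N a) (m a) (I a) (J a) (p a) (n a)) := by
  unfold tileCells
  have h0 : ∀ {I : α → ℕ}, IsPolyTime I → IsPolyTime (fun a => decide (I a = 0)) :=
    fun h => pt_eq h (pt_const 0)
  refine pt_ite (h0 hI) (pt_ite (h0 hJ) (pt_const _) (pt_ite (pt_le hJ hm) (pt_const _)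
    (pt_const _))) (pt_ite (pt_le hI hN) ?_ ?_)
  · refine pt_ite (h0 hJ) (pt_ite (pt_odd hI) (pt_const _) (pt_const _)) ?_
    refine pt_ite (pt_le hJ hm) ?_ ?_
    · exact pt_cond hp (pt_cond hn (pt_const _) (pt_const _)) (pt_cond hn (pt_const _) (pt_const _))
    · exact pt_ite (pt_eq hJ (pt_succ hm)) (pt_ite (pt_odd hI) (pt_const _) (pt_const _))
        (pt_const _)
  · exact pt_ite (pt_eq hI (pt_succ hN)) (pt_ite (h0 hJ) (pt_const _) (pt_ite (pt_le hJ hm)
      (pt_const _) (pt_const _))) (pt_const _)

theorem pt_shift {I J : α → ℕ} {p : α → ℕ × ℕ} (hI : IsPolyTime I) (hJ : IsPolyTime J)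
    (hp : IsPolyTime p) : IsPolyTime (fun a => shift (I a) (J a) (p a)) := by
  unfold shift
  fun_prop

theorem pt_gridOf : IsPolyTime gridOf := by
  unfold gridOf board
  simp only [cellsR_rowsT]
  have hR : IsPolyTime (fun φ : CNF => pairRows (vars φ)) := pt_pairRows pt_vars
  have h1 : IsPolyTime (fun φ : CNF => List.range ((pairRows (vars φ)).length + 2)) := by
    refine pt_congr (pt_range (l := fun φ => (0, false) :: (0, false) :: pairRows (vars φ))
      (pt_cons (pt_const _) (pt_cons (pt_const _) hR))) (fun φ => ?_)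
    rfl
  have h2 : IsPolyTime (fun φ : CNF => List.range (φ.length + 2)) := by
    refine pt_congr (pt_range (l := fun φ : CNF => [] :: [] :: φ)
      (pt_cons (pt_const _) (pt_cons (pt_const _) pt_id))) (fun φ => ?_)
    rfl
  refine pt_flatMap h1 ?_
  refine pt_flatMap (pt_comp (g := fun φ : CNF => List.range (φ.length + 2)) h2 pt_fst') ?_
  refine pt_map ?_ ?_
  · refine pt_tileCells ?_ ?_ ?_ ?_ ?_ ?_
    · exact pt_length (pt_comp (g := fun φ : CNF => pairRows (vars φ)) hR (by fun_prop))
    · fun_prop
    · fun_prop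
    · fun_prop
    · exact pt_lit _ (by fun_prop) (by fun_prop) (by fun_prop)
    · exact pt_lit _ (by fun_prop) (by fun_prop) (by fun_prop)
  · exact pt_shift (by fun_prop) (by fun_prop) (by fun_prop)

end Pool.Agent.Lib.GridHam
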